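import Pool.Agent.Work.MP_d4a4cd_mean.Interface2

/-! # BB1: uniform bound for the first moment -/

set_option autoImplicit false

namespace Pool.Agent.LuckyMean

open Finset
open Pool.Agent.LuckyStirling (T step ftf a a_eq length_step)

namespace BB1

theorem T_zero : ∀ (t : ℕ) (u : List Bool) (j : ℕ), t < j → T t u j = 0 := by
  intro t
  induction t with
  | zero =>
    intro u j hj
    rw [T, if_neg (by omega)]
  | succ t ih =>
    intro u j hj
    rw [T]
    refine sum_eq_zero fun g _ => ?_
    split_ifs
    · rfl
    · exact ih _ _ (by omega)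
    · exact ih _ _ (by omega)

theorem Pn_succ (m t : ℕ) : Pn m (t + 1) = (2 * m + 1) * Pn (m + 1) t := by
  unfold Pn
  rw [prod_range_succ', mul_comm]
  congr 1
  refine prod_congr rfl fun i _ => ?_
  ring

theorem T_sum : ∀ (t m : ℕ) (u : List Bool), u.length = 2 * m →
    ∑ j ∈ range (t + 1), T t u j = Pn m t := by
  intro t
  induction t with
  | zero =>
    intro m u _
    rw [sum_range_one, T, if_pos rfl]
    rfl
  | succ t ih =>
    intro m u hu
    have h1 : ∑ j ∈ range (t + 1 + 1), T (t + 1) u j = ∑ j ∈ range (t + 1 + 1),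
        ∑ g ∈ range (u.length + 1), if true ∈ u.take g then
          (if j = 0 then 0 else T t (step u g) (j - 1)) else T t (step u g) j := by
      refine sum_congr rfl fun j _ => ?_
      rw [T]
    have h2 : ∀ g ∈ range (u.length + 1), ∑ j ∈ range (t + 1 + 1),
        (if true ∈ u.take g then
          (if j = 0 then 0 else T t (step u g) (j - 1)) else T t (step u g) j) = Pn (m + 1) t := by
      intro g _
      rw [← ih (m + 1) (step u g) (by rw [length_step, hu]; ring)]
      by_cases h : true ∈ u.take g
      · simp only [if_pos h]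
        rw [sum_range_succ', if_pos rfl, add_zero]
        refine sum_congr rfl fun j _ => ?_
        rw [if_neg (Nat.succ_ne_zero j), Nat.add_sub_cancel]
      · simp only [if_neg h]
        rw [sum_range_succ, T_zero t (step u g) (t + 1) (Nat.lt_succ_self t), add_zero]
    rw [h1, sum_comm, sum_congr rfl h2, sum_const, card_range, smul_eq_mul, hu, Pn_succ]

theorem ind_one (u : List Bool) (g : ℕ) : ind g 1 u = if true ∈ u.take g then 0 else 1 := by
  unfold ind
  by_cases h : true ∈ u.take g
  · rw [if_pos h, if_neg]
    have := List.count_pos_iff.mpr h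
    omega
  · rw [if_neg h, if_pos]
    rw [List.count_eq_zero_of_not_mem h]
    exact Nat.one_pos

theorem B1_succ (t m : ℕ) (v : List Bool) (hv : v.length = 2 * m) :
    B1 (t + 1) v = ∑ g ∈ range (v.length + 1), B1 t (step v g) + lg v * Pn (m + 1) t := by
  have h1 : B1 (t + 1) v = ∑ j ∈ range (t + 1 + 1), ∑ g ∈ range (v.length + 1),
      (t + 1 - j) * (if true ∈ v.take g then
        (if j = 0 then 0 else T t (step v g) (j - 1)) else T t (step v g) j) := by
    unfold B1
    refine sum_congr rfl fun j _ => ?_
    rw [T, mul_sum]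
  have h2 : lg v * Pn (m + 1) t = ∑ g ∈ range (v.length + 1), ind g 1 v * Pn (m + 1) t := by
    unfold lg
    rw [sum_mul]
  rw [h1, sum_comm, h2, ← sum_add_distrib]
  refine sum_congr rfl fun g _ => ?_
  have hlen : (step v g).length = 2 * (m + 1) := by rw [length_step, hv]; ring
  by_cases h : true ∈ v.take g
  · rw [ind_one, if_pos h, zero_mul, add_zero]
    simp only [if_pos h]
    rw [sum_range_succ', if_pos rfl, mul_zero, add_zero]
    unfold B1
    refine sum_congr rfl fun j _ => ?_
    rw [if_neg (Nat.succ_ne_zero j), Nat.add_sub_cancel]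
    congr 1
    omega
  · rw [ind_one, if_neg h, one_mul, ← T_sum t (m + 1) _ hlen]
    simp only [if_neg h]
    rw [sum_range_succ, Nat.sub_self, zero_mul, add_zero]
    unfold B1
    rw [← sum_add_distrib]
    refine sum_congr rfl fun j hj => ?_
    have hj' : j ≤ t := Nat.lt_succ_iff.mp (mem_range.mp hj)
    have : t + 1 - j = (t - j) + 1 := by omega
    rw [this, add_mul, one_mul]

theorem B1_eq : ∀ (t m : ℕ) (v : List Bool), v.length = 2 * m →
    B1 t v = ∑ s ∈ range t, H s lg v * ∏ i ∈ Ico (s + 1) t, (2 * m + 2 * i + 1) := by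
  intro t
  induction t with
  | zero =>
    intro m v _
    unfold B1
    simp
  | succ t ih =>
    intro m v hv
    rw [B1_succ t m v hv,
      sum_range_succ' (fun s => H s lg v * ∏ i ∈ Ico (s + 1) (t + 1), (2 * m + 2 * i + 1)) t]
    congr 1
    · have h1 : ∀ g ∈ range (v.length + 1), B1 t (step v g) =
          ∑ s ∈ range t, H s lg (step v g) * ∏ i ∈ Ico (s + 1) t, (2 * (m + 1) + 2 * i + 1) :=
        fun g _ => ih (m + 1) (step v g) (by rw [length_step, hv]; ring)
      rw [sum_congr rfl h1, sum_comm]
      refine sum_congr rfl fun s _ => ?_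
      rw [← sum_mul]
      have h2 : H (s + 1) lg v = ∑ g ∈ range (v.length + 1), H s lg (step v g) := rfl
      rw [h2]
      congr 1
      rw [← Finset.prod_Ico_add' (fun i => 2 * m + 2 * i + 1) (s + 1) t 1]
      refine prod_congr rfl fun i _ => ?_
      ring
    · have h3 : H 0 lg v = lg v := rfl
      rw [h3]
      congr 1
      unfold Pn
      rw [Finset.range_eq_Ico, zero_add, ← Finset.prod_Ico_add' (fun i => 2 * m + 2 * i + 1) 0 t 1]
      refine prod_congr rfl fun i _ => ?_
      ring

theorem H_le (f : List Bool → ℕ) (C : ℝ) : ∀ (p m : ℕ) (v : List Bool), v.length = 2 * m →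
    (∀ u : List Bool, u.length = 2 * (m + p) → (f u : ℝ) ≤ C) → (H p f v : ℝ) ≤ C * Pn m p := by
  intro p
  induction p with
  | zero =>
    intro m v hv hf
    have h1 : H 0 f v = f v := rfl
    have h2 : Pn m 0 = 1 := rfl
    rw [h1, h2, Nat.cast_one, mul_one]
    exact hf v (by rw [hv, add_zero])
  | succ p ih =>
    intro m v hv hf
    have h1 : H (p + 1) f v = ∑ g ∈ range (v.length + 1), H p f (step v g) := rfl
    rw [h1, Pn_succ, hv]
    push_cast
    calc ∑ g ∈ range (2 * m + 1), (H p f (step v g) : ℝ)
        ≤ ∑ g ∈ range (2 * m + 1), C * Pn (m + 1) p := by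
          apply sum_le_sum
          intro g _
          apply ih (m + 1) (step v g) (by rw [length_step, hv]; ring)
          intro u hu
          exact hf u (by rw [hu]; ring)
      _ = C * ((2 * m + 1) * Pn (m + 1) p) := by
          rw [sum_const, card_range, nsmul_eq_mul]
          push_cast
          ring

theorem H_add (f : List Bool → ℕ) (q : ℕ) : ∀ (p : ℕ) (v : List Bool),
    H (p + q) f v = H p (fun u => H q f u) v := by
  intro p
  induction p with
  | zero =>
    intro v
    rw [zero_add]
    rfl
  | succ p ih =>
    intro v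
    have h0 : p + 1 + q = (p + q) + 1 := by ring
    rw [h0]
    show ∑ g ∈ range (v.length + 1), H (p + q) f (step v g) =
      ∑ g ∈ range (v.length + 1), H p (fun u => H q f u) (step v g)
    exact sum_congr rfl fun g _ => ih _

theorem Pn_add (m p q : ℕ) : Pn m (p + q) = Pn m p * Pn (m + p) q := by
  unfold Pn
  rw [prod_range_add]
  congr 1
  refine prod_congr rfl fun i _ => ?_
  ring

theorem lg_le (u : List Bool) : lg u ≤ u.length + 1 := by
  unfold lg
  calc ∑ g ∈ range (u.length + 1), ind g 1 u ≤ ∑ g ∈ range (u.length + 1), 1 := by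
        apply sum_le_sum
        intro g _
        unfold ind
        split_ifs <;> omega
    _ = u.length + 1 := by simp

end BB1

open BB1 in
theorem p_BB1 (hUCB : S_UCB) : S_BB1 := by
  intro ε hε
  obtain ⟨K, M0, hK⟩ := hUCB ε hε
  have hlog : Real.log 2 < 1 := by
    have := Real.log_two_lt_d9
    linarith
  set q : ℝ := 1 - Real.log 2 + ε with hq
  have hq0 : 0 ≤ q := by rw [hq]; linarith
  refine ⟨(K + M0 : ℕ), by positivity, ?_⟩
  intro m t v hv
  have hs : ∀ s : ℕ, (H s lg v : ℝ) ≤
      (q + if s < K + M0 then 1 else 0) * ((2 * m + 2 * s + 1) * Pn m s) := by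
    intro s
    have hP : (0 : ℝ) ≤ (2 * m + 2 * s + 1) * Pn m s := by positivity
    by_cases h : s < K + M0
    · rw [if_pos h]
      have h1 := H_le lg (2 * m + 2 * s + 1) s m v hv (by
        intro u hu
        have h2 := lg_le u
        rw [hu] at h2
        have h3 : (lg u : ℝ) ≤ ((2 * (m + s) + 1 : ℕ) : ℝ) := by exact_mod_cast h2
        push_cast at h3
        linarith)
      nlinarith [mul_nonneg hq0 hP]
    · rw [if_neg h, add_zero]
      obtain ⟨p, rfl⟩ : ∃ p, s = p + K := ⟨s - K, by omega⟩
      have hp : M0 ≤ m + p := by omega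
      rw [H_add]
      have h1 := H_le (fun u => H K lg u) (q * (2 * (m + p + K : ℕ) + 1) * Pn (m + p) K) p m v hv (by
        intro u hu
        exact hK (m + p) u hp hu)
      rw [Pn_add]
      refine h1.trans (le_of_eq ?_)
      push_cast
      ring
  rw [B1_eq t m v hv]
  push_cast
  calc ∑ s ∈ range t, (H s lg v : ℝ) * ∏ i ∈ Ico (s + 1) t, (2 * (m : ℝ) + 2 * i + 1)
      ≤ ∑ s ∈ range t, (q + if s < K + M0 then 1 else 0) * Pn m t := by
        apply sum_le_sum
        intro s hst
        have hst' : s + 1 ≤ t := mem_range.mp hst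
        have hprod : (Pn m t : ℝ) = ((2 * m + 2 * s + 1) * Pn m s) *
            ∏ i ∈ Ico (s + 1) t, (2 * (m : ℝ) + 2 * i + 1) := by
          unfold Pn
          push_cast
          rw [← prod_range_mul_prod_Ico _ hst', prod_range_succ]
          ring
        rw [hprod, ← mul_assoc]
        apply mul_le_mul_of_nonneg_right (hs s)
        apply prod_nonneg
        intro i _
        positivity
    _ = (q * t + ∑ s ∈ range t, (if s < K + M0 then (1 : ℝ) else 0)) * Pn m t := by
        rw [← sum_mul, sum_add_distrib, sum_const, card_range, nsmul_eq_mul]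
        ring
    _ ≤ (q * t + (K + M0)) * Pn m t := by
        apply mul_le_mul_of_nonneg_right _ (by positivity)
        gcongr
        rw [← sum_filter, sum_const, nsmul_eq_mul, mul_one]
        have : ((range t).filter fun s => s < K + M0).card ≤ K + M0 := by
          calc ((range t).filter fun s => s < K + M0).card ≤ (range (K + M0)).card := by
                apply card_le_card
                intro s hs
                exact mem_range.mpr (mem_filter.mp hs).2
            _ = K + M0 := card_range _
        exact_mod_cast this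

end Pool.Agent.LuckyMean
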