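import Pool.Agent.Work.MP_d4a4cd_mean.Interface

/-!
# Block EXB: `V` is small behind the barrier
-/

set_option autoImplicit false

namespace Pool.Agent.LuckyMean

open Finset

theorem p_EXB : S_EXB := by
  intro x y k c h1 h2
  have hRHS : 0 ≤ 2 * ((x : ℝ) + c + 1) / ((c : ℝ) + 3) ^ 2 := by positivity
  unfold V
  split_ifs with hk
  · have hk1 : c + 4 ≤ 2 * k := by omega
    have hx2 : (2 : ℝ) ≤ x := by
      have : 2 ≤ x := by omega
      exact_mod_cast this
    have hkx : (2 : ℝ) * k ≤ x := by exact_mod_cast hk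
    have hck : (c : ℝ) + 4 ≤ 2 * k := by exact_mod_cast hk1
    have hy : ((y + 1 : ℕ) : ℝ) = x + c + 3 - 2 * k := by
      have h3 : (y : ℝ) + 2 * k = x + c + 2 := by exact_mod_cast h1
      push_cast
      linarith
    have hc0 : (0 : ℝ) ≤ c := Nat.cast_nonneg _
    have hT : 0 < (x : ℝ) + c + 1 := by linarith
    obtain ⟨t, ht⟩ : ∃ t : ℝ, t = ((c : ℝ) + 3) / ((x : ℝ) + c + 1) := ⟨_, rfl⟩
    have ht0 : 0 < t := by rw [ht]; positivity
    have ht1 : t ≤ 1 := by
      rw [ht, div_le_one hT]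
      linarith
    have htT : t * ((x : ℝ) + c + 1) = c + 3 := by
      rw [ht]; field_simp
    have hR : R (x - 2 * k) (y + 1) k ≤ (1 - t) ^ k := by
      unfold R
      rw [hy]
      have h3 : ((x - 2 * k : ℕ) : ℝ) = x - 2 * k := by
        rw [Nat.cast_sub hk]
        push_cast
        ring
      rw [h3]
      calc ∏ i ∈ range k, ((x : ℝ) - 2 * k + 2 * (i : ℝ)) / ((x : ℝ) + c + 3 - 2 * k + 2 * (i : ℝ))
          ≤ ∏ i ∈ range k, (1 - t) := by
            refine prod_le_prod (fun i _ => ?_) (fun i hi => ?_)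
            · have hi0 : (0 : ℝ) ≤ i := Nat.cast_nonneg _
              refine div_nonneg ?_ ?_ <;> linarith
            · have hi0 : (0 : ℝ) ≤ i := Nat.cast_nonneg _
              have hi1 : (i : ℝ) + 1 ≤ k := by
                have := mem_range.1 hi
                exact_mod_cast this
              have hden : 0 < (x : ℝ) + c + 3 - 2 * k + 2 * (i : ℝ) := by linarith
              rw [div_le_iff₀ hden]
              have h4 : t * ((x : ℝ) + c + 3 - 2 * k + 2 * (i : ℝ)) ≤ t * ((x : ℝ) + c + 1) :=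
                mul_le_mul_of_nonneg_left (by linarith) ht0.le
              linarith
        _ = (1 - t) ^ k := by rw [prod_const, card_range]
    have hB : (1 - t) ^ k * (k * t) ≤ 1 := by
      have h3 : 0 ≤ (1 - t) ^ k := pow_nonneg (by linarith) k
      have h4 : 1 + (k : ℝ) * t ≤ (1 + t) ^ k := one_add_mul_le_pow (by linarith) k
      have h5 : (1 - t) ^ k * (1 + (k : ℝ) * t) ≤ (1 - t) ^ k * (1 + t) ^ k :=
        mul_le_mul_of_nonneg_left h4 h3
      have h6 : (1 - t) ^ k * (1 + t) ^ k ≤ 1 := by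
        rw [← mul_pow]
        refine pow_le_one₀ (mul_nonneg (by linarith) (by linarith)) ?_
        nlinarith
      have h7 : (1 - t) ^ k * (k * t) ≤ (1 - t) ^ k * (1 + (k : ℝ) * t) :=
        mul_le_mul_of_nonneg_left (by linarith) h3
      linarith
    refine hR.trans ?_
    rw [le_div_iff₀ (by positivity)]
    have h3 : 0 ≤ (1 - t) ^ k := pow_nonneg (by linarith) k
    calc (1 - t) ^ k * ((c : ℝ) + 3) ^ 2 = (1 - t) ^ k * (((c : ℝ) + 3) * (c + 3)) := by ring
      _ ≤ (1 - t) ^ k * ((2 * k) * (c + 3)) :=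
          mul_le_mul_of_nonneg_left (mul_le_mul_of_nonneg_right (by linarith) (by positivity)) h3
      _ = 2 * ((1 - t) ^ k * (k * t)) * ((x : ℝ) + c + 1) := by rw [← htT]; ring
      _ ≤ 2 * 1 * ((x : ℝ) + c + 1) :=
          mul_le_mul_of_nonneg_right (by linarith) hT.le
      _ = 2 * ((x : ℝ) + c + 1) := by ring
  · exact hRHS

end Pool.Agent.LuckyMean
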