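import Pool.Agent.Work.MP_d4a4cd_mean.Interface

/-!
# The mean number of lucky cars: the final summation
-/

set_option autoImplicit false

namespace Pool.Agent.LuckyMean

open Finset
open Pool.Agent.LuckyStirling (T step ftf a)

namespace XFIN

theorem df_pos (n : ℕ) : 0 < df n := Finset.prod_pos (fun i _ => by omega)

theorem df_split {m n : ℕ} (h : m < n) :
    df n = df m * (2 * m + 1) * ∏ i ∈ Ico (m + 1) n, (2 * i + 1) := by
  have h1 := Finset.prod_range_mul_prod_Ico (fun i => 2 * i + 1) (show m + 1 ≤ n from h)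
  rw [Finset.prod_range_succ] at h1
  exact h1.symm

theorem sum_sqrt (n : ℕ) : ∑ m ∈ range n, 1 / Real.sqrt ((m : ℝ) + 1) ≤ 2 * Real.sqrt n := by
  induction n with
  | zero => simp
  | succ n ih =>
    rw [Finset.sum_range_succ]
    have hs : 0 < Real.sqrt ((n : ℝ) + 1) := Real.sqrt_pos.2 (by positivity)
    have hq : Real.sqrt ((n : ℝ) + 1) ^ 2 = (n : ℝ) + 1 := Real.sq_sqrt (by positivity)
    have hq2 : Real.sqrt (n : ℝ) ^ 2 = (n : ℝ) := Real.sq_sqrt (by positivity)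
    have h0 : 0 ≤ Real.sqrt (n : ℝ) := Real.sqrt_nonneg _
    have hkey : 1 / Real.sqrt ((n : ℝ) + 1) ≤ 2 * Real.sqrt ((n : ℝ) + 1) - 2 * Real.sqrt n := by
      rw [div_le_iff₀ hs]
      nlinarith [sq_nonneg (Real.sqrt ((n : ℝ) + 1) - Real.sqrt n)]
    push_cast
    linarith

end XFIN

open XFIN in
/-- FIN -/
theorem p_FIN (hTOT : S_TOT) (hFST : S_FST) (hWSU : S_WSU) (hSUM : S_SUM) : S_MAIN := by
  obtain ⟨C, hC⟩ := hSUM
  have hC0 : 0 ≤ C := by
    have h := (abs_nonneg _).trans (hC 0)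
    simpa using h
  have hl0 : 0 < Real.log 2 := Real.log_pos (by norm_num)
  have hl1 : Real.log 2 ≤ 1 := by
    have h := Real.log_le_sub_one_of_pos (show (0 : ℝ) < 2 by norm_num)
    linarith
  refine ⟨2 * (C + 1), fun n => ?_⟩
  have htot : (∑ k ∈ range (n + 1), (a n k : ℝ)) = df n := by
    rw [← hTOT n]
    push_cast
    rfl
  have hfst : (∑ k ∈ range (n + 1), (k : ℝ) * a n k) =
      ∑ m ∈ range n, (H m lg [] : ℝ) * ∏ i ∈ Ico (m + 1) n, (2 * (i : ℝ) + 1) := by
    have h := congrArg (fun z : ℕ => (z : ℝ)) (hFST n)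
    push_cast at h
    exact h
  have hdn : (0 : ℝ) < df n := by exact_mod_cast df_pos n
  have hterm : ∀ m ∈ range n, (H m lg [] : ℝ) * (∏ i ∈ Ico (m + 1) n, (2 * (i : ℝ) + 1)) / df n =
      ((∑ x ∈ range (2 * m + 1), (F m x 1 : ℝ)) / df m) / (2 * m + 1) := by
    intro m hm
    have hm' : m < n := Finset.mem_range.1 hm
    have h1 : (df n : ℝ) = df m * (2 * m + 1) * ∏ i ∈ Ico (m + 1) n, (2 * (i : ℝ) + 1) := by
      rw [df_split hm']
      push_cast
      rfl
    have h2 : (H m lg [] : ℝ) = ∑ x ∈ range (2 * m + 1), (F m x 1 : ℝ) := by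
      rw [hWSU m]
      push_cast
      rfl
    have hP : (0 : ℝ) < ∏ i ∈ Ico (m + 1) n, (2 * (i : ℝ) + 1) :=
      Finset.prod_pos (fun i _ => by positivity)
    have hdm : (0 : ℝ) < df m := by exact_mod_cast df_pos m
    rw [h1, h2]
    field_simp
  have hmean : (∑ k ∈ range (n + 1), (k : ℝ) * a n k) / (∑ k ∈ range (n + 1), (a n k : ℝ)) -
      (1 - Real.log 2) * n = ∑ m ∈ range n,
        (((∑ x ∈ range (2 * m + 1), (F m x 1 : ℝ)) / df m) / (2 * m + 1) - (1 - Real.log 2)) := by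
    rw [htot, hfst, Finset.sum_div, Finset.sum_congr rfl hterm, Finset.sum_sub_distrib,
      Finset.sum_const, Finset.card_range, nsmul_eq_mul]
    ring
  rw [hmean]
  refine (Finset.abs_sum_le_sum_abs _ _).trans ?_
  have hb : ∀ m ∈ range n,
      |((∑ x ∈ range (2 * m + 1), (F m x 1 : ℝ)) / df m) / (2 * m + 1) - (1 - Real.log 2)| ≤
        (C + 1) * (1 / Real.sqrt ((m : ℝ) + 1)) := by
    intro m _
    have h := hC m
    obtain ⟨S, hS⟩ : ∃ S : ℝ, S = (∑ x ∈ range (2 * m + 1), (F m x 1 : ℝ)) / df m := ⟨_, rfl⟩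
    rw [← hS] at h ⊢
    have hm0 : (0 : ℝ) ≤ m := Nat.cast_nonneg m
    have hs : 0 < Real.sqrt ((m : ℝ) + 1) := Real.sqrt_pos.2 (by positivity)
    have hq : Real.sqrt ((m : ℝ) + 1) ^ 2 = (m : ℝ) + 1 := Real.sq_sqrt (by positivity)
    have hs1 : 1 ≤ Real.sqrt ((m : ℝ) + 1) := by
      rw [show (1 : ℝ) = Real.sqrt 1 from Real.sqrt_one.symm]
      exact Real.sqrt_le_sqrt (by rw [Real.sqrt_one]; linarith)
    have h1 : S / (2 * m + 1) - (1 - Real.log 2) =
        (S - 2 * m * (1 - Real.log 2) - (1 - Real.log 2)) / (2 * m + 1) := by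
      field_simp
      ring
    rw [h1, abs_div, abs_of_pos (show (0 : ℝ) < 2 * m + 1 by positivity),
      div_le_iff₀ (by positivity)]
    have h2 : |S - 2 * m * (1 - Real.log 2) - (1 - Real.log 2)| ≤
        C * Real.sqrt ((m : ℝ) + 1) + 1 := by
      refine (abs_sub _ _).trans ?_
      have h3 : |1 - Real.log 2| ≤ 1 := by
        rw [abs_le]
        constructor <;> linarith
      linarith
    refine h2.trans ?_
    have h4 : (C + 1) * (1 / Real.sqrt ((m : ℝ) + 1)) * (2 * m + 1) =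
        (C + 1) * (2 * m + 1) / Real.sqrt ((m : ℝ) + 1) := by ring
    rw [h4, le_div_iff₀ hs]
    nlinarith [mul_nonneg hC0 hm0]
  refine (Finset.sum_le_sum hb).trans ?_
  rw [← Finset.mul_sum]
  have h5 := sum_sqrt n
  nlinarith

end Pool.Agent.LuckyMean
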