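import Pool.Agent.Work.MP_d4a4cd_mean.B_TOT

/-! # FST: the first moment -/

set_option autoImplicit false

namespace Pool.Agent.LuckyMean

open Finset
open Pool.Agent.LuckyStirling (T step ftf a a_eq length_step)

namespace FST

theorem ind_one (g : ℕ) (u : List Bool) : ind g 1 u = if true ∈ u.take g then 0 else 1 := by
  unfold ind
  by_cases h : true ∈ u.take g
  · rw [if_pos h, if_neg]
    have := List.count_pos_iff.2 h
    omega
  · rw [if_neg h, if_pos]
    rw [List.count_eq_zero_of_not_mem h]
    exact Nat.zero_lt_one

theorem moment : ∀ (t : ℕ) (u : List Bool),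
    ∑ j ∈ range (t + 1), (t - j) * T t u j =
      ∑ m ∈ range t, H m lg u * ∏ i ∈ Ico (m + 1) t, (u.length + 2 * i + 1) := by
  intro t
  induction t with
  | zero =>
    intro u
    rw [sum_range_one, sum_range_zero, Nat.sub_zero, zero_mul]
  | succ t ih =>
    intro u
    have h1 : ∑ j ∈ range (t + 1 + 1), (t + 1 - j) * T (t + 1) u j =
        ∑ j ∈ range (t + 1 + 1), ∑ g ∈ range (u.length + 1), (t + 1 - j) *
          (if true ∈ u.take g then
            (if j = 0 then 0 else T t (step u g) (j - 1)) else T t (step u g) j) := by
      refine sum_congr rfl fun j _ => ?_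
      rw [T, mul_sum]
    have h2 : ∀ g ∈ range (u.length + 1), ∑ j ∈ range (t + 1 + 1), (t + 1 - j) *
        (if true ∈ u.take g then
          (if j = 0 then 0 else T t (step u g) (j - 1)) else T t (step u g) j) =
        ∑ m ∈ range t, H m lg (step u g) *
          ∏ i ∈ Ico (m + 1) t, ((step u g).length + 2 * i + 1) +
        ind g 1 u * ∏ i ∈ range t, (u.length + 2 * (i + 1) + 1) := by
      intro g _
      rw [← ih (step u g), ind_one]
      by_cases h : true ∈ u.take g
      · simp only [if_pos h]
        rw [zero_mul, add_zero, sum_range_succ', if_pos rfl, mul_zero, add_zero]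
        refine sum_congr rfl fun j _ => ?_
        rw [if_neg (Nat.succ_ne_zero j), Nat.add_sub_cancel, Nat.add_sub_add_right]
      · simp only [if_neg h]
        rw [one_mul, sum_range_succ, TOT.T_zero t (step u g) (t + 1) (Nat.lt_succ_self t),
          mul_zero, add_zero]
        have h3 : ∏ i ∈ range t, (u.length + 2 * (i + 1) + 1) =
            ∑ j ∈ range (t + 1), T t (step u g) j := by
          rw [TOT.T_sum, length_step]
          refine prod_congr rfl fun i _ => ?_
          ring
        rw [h3, ← sum_add_distrib]
        refine sum_congr rfl fun j hj => ?_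
        have hj' := mem_range.1 hj
        rw [show t + 1 - j = (t - j) + 1 by omega, add_mul, one_mul]
    rw [h1, sum_comm, sum_congr rfl h2, sum_add_distrib, sum_range_succ' _ t, sum_comm]
    refine congrArg₂ (· + ·) ?_ ?_
    · refine sum_congr rfl fun m _ => ?_
      rw [H, sum_mul]
      refine sum_congr rfl fun g _ => ?_
      congr 1
      rw [length_step, ← prod_Ico_add' (fun i : ℕ => u.length + 2 * i + 1) (m + 1) t 1]
      refine prod_congr rfl fun i _ => ?_
      ring
    · rw [← sum_mul, H, lg, zero_add, prod_Ico_eq_prod_range, Nat.add_sub_cancel]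
      refine congrArg _ (prod_congr rfl fun i _ => ?_)
      ring

end FST

theorem p_FST : S_FST := by
  intro n
  have h1 : ∑ k ∈ range (n + 1), k * a n k =
      ∑ k ∈ range (n + 1), (n - (n + 1 - 1 - k)) * T n [] (n + 1 - 1 - k) := by
    refine sum_congr rfl fun k hk => ?_
    have hk' := mem_range.1 hk
    rw [a_eq n k (by omega), Nat.add_sub_cancel, show n - (n - k) = k by omega]
  rw [h1, sum_range_reflect (fun j => (n - j) * T n [] j) (n + 1), FST.moment]
  refine sum_congr rfl fun m _ => ?_
  congr 1
  refine prod_congr rfl fun i _ => ?_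
  rw [List.length_nil]
  ring

end Pool.Agent.LuckyMean
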