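import Pool.Agent.Work.MP_d4a4cd_mean.Interface2

set_option autoImplicit false

namespace Pool.Agent.LuckyMean

open Finset

namespace KSTx

lemma V_le (x y k : ℕ) (ρ : ℝ) (h0 : 0 ≤ ρ) (h : (x : ℝ) ≤ ρ * (y + 1)) : V x y k ≤ ρ ^ k := by
  unfold V
  split_ifs with hk
  · unfold R
    have h1 : ∏ i ∈ range k, (((x - 2 * k : ℕ) : ℝ) + 2 * i) / (((y + 1 : ℕ) : ℝ) + 2 * i) ≤
        ∏ i ∈ range k, ρ := by
      apply Finset.prod_le_prod
      · intro i _
        positivity
      · intro i hi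
        rw [mem_range] at hi
        rw [div_le_iff₀ (by positivity)]
        have h2 : ((x - 2 * k : ℕ) : ℝ) + 2 * i ≤ x := by
          exact_mod_cast (by omega : x - 2 * k + 2 * i ≤ x)
        have h3 : (0 : ℝ) ≤ 2 * (i : ℝ) := by positivity
        push_cast
        nlinarith
    rw [prod_const, card_range] at h1
    exact h1
  · exact pow_nonneg h0 k

lemma Pn_succ (m s : ℕ) : (Pn m (s + 1) : ℝ) = Pn m s * (2 * m + 2 * s + 1) := by
  unfold Pn
  rw [prod_range_succ]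
  push_cast
  ring

lemma main (hSUB : S_SUB) (m X : ℕ) (ρ q τ r : ℝ) (hρ : 0 < ρ) (hρ1 : ρ < 1) (hr : 0 ≤ r)
    (hX1 : X ≤ m) (hX2 : (X : ℝ) ≤ ρ * (2 * m - X + 1)) (hX3 : (X : ℝ) ≤ q * (2 * m + 1))
    (hτ : 1 ≤ τ * (2 * m + 1)) (hq0 : 0 ≤ q) (hτ0 : 0 ≤ τ)
    (hstar : q * (1 - ρ ^ 2) + τ * (ρ - ρ ^ 2) + ρ ^ 2 ≤ r * ρ) :
    ∀ s x k : ℕ, x ≤ X → (FK s (m + s) x k : ℝ) ≤
      Pn m s * (1 - V x (2 * (m + s) - x) k + ρ ^ k * r ^ s) := by
  intro s
  induction s with
  | zero =>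
    intro x k hx
    have hP : (Pn m 0 : ℝ) = 1 := by
      unfold Pn
      simp
    rw [hP, one_mul, pow_zero, mul_one]
    have hx' : (x : ℝ) ≤ X := by exact_mod_cast hx
    have hV : V x (2 * (m + 0) - x) k ≤ ρ ^ k := by
      apply V_le _ _ _ _ hρ.le
      have h1 : ((2 * (m + 0) - x : ℕ) : ℝ) = 2 * m - x := by
        rw [Nat.cast_sub (by omega)]
        push_cast
        ring
      rw [h1]
      nlinarith
    cases k with
    | zero =>
      have h1 : FK 0 (m + 0) x 0 = 0 := by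
        rw [FK]
      rw [h1]
      have h2 : V x (2 * (m + 0) - x) 0 = 1 := by
        unfold V R
        simp
      rw [h2]
      norm_num
    | succ k =>
      have h1 : FK 0 (m + 0) x (k + 1) = 1 := by
        rw [FK]
      rw [h1]
      push_cast
      linarith
  | succ s ih =>
    intro x k hx
    have hPs : (0 : ℝ) ≤ Pn m s := Nat.cast_nonneg _
    cases k with
    | zero =>
      have h1 : FK (s + 1) (m + (s + 1)) x 0 = 0 := by
        rw [FK]
      have h2 : V x (2 * (m + (s + 1)) - x) 0 = 1 := by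
        unfold V R
        simp
      rw [h1, h2]
      have h3 : (0 : ℝ) ≤ Pn m (s + 1) := Nat.cast_nonneg _
      have h4 : (0 : ℝ) ≤ r ^ (s + 1) := pow_nonneg hr _
      rw [pow_zero, one_mul, Nat.cast_zero]
      have : (1 : ℝ) - 1 + r ^ (s + 1) = r ^ (s + 1) := by ring
      rw [this]
      positivity
    | succ k =>
      obtain ⟨M, hM⟩ : ∃ M, M = m + s := ⟨_, rfl⟩
      have hms : m + (s + 1) = M + 1 := by omega
      rw [hms]
      have hF : FK (s + 1) (M + 1) x (k + 1) = (x - 1) * FK s M (x - 2) k +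
          (if 1 ≤ x ∧ x ≤ 2 * (M + 1) - 1 then FK s M (x - 1) (k + 1) else 0) +
          (2 * (M + 1) - 1 - x) * FK s M x (k + 2) := by
        rw [FK]
        rfl
      rw [hF, Pn_succ]
      rw [← hM] at ih
      have hMm : m ≤ M := by omega
      have hxm : x ≤ m := hx.trans hX1
      obtain ⟨y, hy⟩ : ∃ y, y = 2 * (M + 1) - x := ⟨_, rfl⟩
      rw [← hy]
      have hsub := hSUB x y k (by omega) (by omega)
      have hxy : (x : ℝ) + y - 1 = 2 * M + 1 := by
        rw [hy, Nat.cast_sub (by omega)]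
        push_cast
        ring
      rw [hxy] at hsub
      have hW : (2 * (m : ℝ) + 2 * s + 1) = 2 * M + 1 := by
        rw [hM]
        push_cast
        ring
      rw [hW]
      have hMR : (m : ℝ) ≤ M := by exact_mod_cast hMm
      have hWpos : (0 : ℝ) < 2 * M + 1 := by positivity
      have hN := ih x (k + 2) hx
      have hyN : 2 * M - x = y - 2 := by omega
      rw [hyN] at hN
      have hcN : ((2 * (M + 1) - 1 - x : ℕ) : ℝ) = ((y - 1 : ℕ) : ℝ) := by
        congr 1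
        omega
      have hE : ρ ^ (k + 1) * r ^ (s + 1) = (ρ ^ k * r ^ s) * (r * ρ) := by ring
      have hG : (0 : ℝ) ≤ ρ ^ k * r ^ s := by positivity
      obtain ⟨G, hGd⟩ : ∃ G : ℝ, G = ρ ^ k * r ^ s := ⟨_, rfl⟩
      have hE1 : ρ ^ (k + 1) * r ^ s = G * ρ := by rw [hGd]; ring
      have hE2 : ρ ^ (k + 2) * r ^ s = G * ρ ^ 2 := by rw [hGd]; ring
      rw [hE2] at hN
      rw [hE, ← hGd]
      rw [← hGd] at hG
      have hXR : (x : ℝ) ≤ X := by exact_mod_cast hx
      have hq1 : q * (2 * (m : ℝ) + 1) ≤ q * (2 * M + 1) :=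
        mul_le_mul_of_nonneg_left (by linarith) hq0
      have ht1 : τ * (2 * (m : ℝ) + 1) ≤ τ * (2 * M + 1) :=
        mul_le_mul_of_nonneg_left (by linarith) hτ0
      have hρ2 : 0 ≤ 1 - ρ ^ 2 := by nlinarith
      have hρ3 : 0 ≤ ρ - ρ ^ 2 := by nlinarith
      have hstarW := mul_le_mul_of_nonneg_left hstar hWpos.le
      rcases Nat.eq_zero_or_pos x with rfl | hx1
      · -- only the third term
        have hS : ¬ (1 ≤ 0 ∧ 0 ≤ 2 * (M + 1) - 1) := by omega
        have hS2 : ¬ (1 ≤ 0 ∧ 1 ≤ y) := by omega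
        rw [if_neg hS]
        rw [if_neg hS2] at hsub
        simp only [Nat.zero_sub, Nat.cast_zero, zero_mul, zero_add, Nat.zero_mul] at hsub ⊢
        push_cast
        rw [hcN]
        have hcy : ((y - 1 : ℕ) : ℝ) = 2 * M + 1 := by
          rw [show y - 1 = 2 * M + 1 by omega]
          push_cast
          ring
        rw [hcy] at hsub ⊢
        have h1 : (2 * (M : ℝ) + 1) * (FK s M 0 (k + 2) : ℝ) ≤
            (2 * M + 1) * (Pn m s * (1 - V 0 (y - 2) (k + 2) + G * ρ ^ 2)) :=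
          mul_le_mul_of_nonneg_left hN hWpos.le
        have h2 : (2 * (M : ℝ) + 1) * ρ ^ 2 ≤ (2 * M + 1) * (r * ρ) := by
          have h3 : 0 ≤ q * (1 - ρ ^ 2) := by positivity
          have h4 : 0 ≤ τ * (ρ - ρ ^ 2) := by positivity
          nlinarith
        have h3 : (Pn m s : ℝ) * ((2 * M + 1) * V 0 y (k + 1)) ≤
            Pn m s * ((2 * M + 1) * V 0 (y - 2) (k + 2)) := mul_le_mul_of_nonneg_left hsub hPs
        have h4 : (Pn m s : ℝ) * (G * ((2 * (M : ℝ) + 1) * ρ ^ 2)) ≤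
            Pn m s * (G * ((2 * M + 1) * (r * ρ))) :=
          mul_le_mul_of_nonneg_left (mul_le_mul_of_nonneg_left h2 hG) hPs
        nlinarith
      · have hS : 1 ≤ x ∧ x ≤ 2 * (M + 1) - 1 := ⟨hx1, by omega⟩
        have hS2 : 1 ≤ x ∧ 1 ≤ y := ⟨hx1, by omega⟩
        rw [if_pos hS]
        rw [if_pos hS2] at hsub
        have hD : ((x - 1 : ℕ) : ℝ) * (FK s M (x - 2) k : ℝ) ≤
            ((x - 1 : ℕ) : ℝ) * (Pn m s * (1 - V (x - 2) y k + G)) := by
          rcases Nat.lt_or_ge 1 x with hx2 | hx2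
          · have h1 := ih (x - 2) k (by omega)
            rw [show 2 * M - (x - 2) = y by omega, ← hGd] at h1
            exact mul_le_mul_of_nonneg_left h1 (Nat.cast_nonneg _)
          · have : x - 1 = 0 := by omega
            rw [this]
            simp
        have hSS := ih (x - 1) (k + 1) (by omega)
        rw [show 2 * M - (x - 1) = y - 1 by omega, hE1] at hSS
        have hNN : ((y - 1 : ℕ) : ℝ) * (FK s M x (k + 2) : ℝ) ≤
            ((y - 1 : ℕ) : ℝ) * (Pn m s * (1 - V x (y - 2) (k + 2) + G * ρ ^ 2)) :=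
          mul_le_mul_of_nonneg_left hN (Nat.cast_nonneg _)
        push_cast
        rw [hcN]
        have hcx : ((x - 1 : ℕ) : ℝ) = x - 1 := by
          rw [Nat.cast_sub hx1]
          push_cast
          ring
        have hcy : ((y - 1 : ℕ) : ℝ) = 2 * M + 1 - x := by
          rw [show y - 1 = 2 * M + 1 - x by omega, Nat.cast_sub (by omega)]
          push_cast
          ring
        rw [hcx] at hD hsub ⊢
        rw [hcy] at hNN hsub ⊢
        have h2 : ((x : ℝ) - 1) + ρ + (2 * M + 1 - x) * ρ ^ 2 ≤ (2 * M + 1) * (r * ρ) := by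
          have h3 : ((x : ℝ) - 1) * (1 - ρ ^ 2) ≤ q * (2 * M + 1) * (1 - ρ ^ 2) :=
            mul_le_mul_of_nonneg_right (by linarith) hρ2
          have h4 : 1 * (ρ - ρ ^ 2) ≤ τ * (2 * M + 1) * (ρ - ρ ^ 2) :=
            mul_le_mul_of_nonneg_right (by linarith) hρ3
          nlinarith
        have h3 : (Pn m s : ℝ) * ((2 * M + 1) * V x y (k + 1)) ≤
            Pn m s * (((x : ℝ) - 1) * V (x - 2) y k + V (x - 1) (y - 1) (k + 1) +
              (2 * M + 1 - x) * V x (y - 2) (k + 2)) := mul_le_mul_of_nonneg_left hsub hPs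
        have h4 : (Pn m s : ℝ) * (G * (((x : ℝ) - 1) + ρ + (2 * M + 1 - x) * ρ ^ 2)) ≤
            Pn m s * (G * ((2 * M + 1) * (r * ρ))) :=
          mul_le_mul_of_nonneg_left (mul_le_mul_of_nonneg_left h2 hG) hPs
        nlinarith

end KSTx

theorem p_KSTx (hSUB : S_SUB) : S_KST := by
  intro η h0 h1
  refine ⟨1 - η ^ 2 / 8, by nlinarith, by nlinarith [sq_pos_of_pos h0], fun K => ?_⟩
  obtain ⟨M0, hM0⟩ := exists_nat_ge (((K : ℝ) + 2) / η)
  refine ⟨M0, fun m hm x hx => ?_⟩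
  have hm' : ((K : ℝ) + 2) ≤ η * m := by
    have h2 : ((K : ℝ) + 2) / η ≤ m := hM0.trans (by exact_mod_cast hm)
    rw [div_le_iff₀ h0] at h2
    linarith
  have hK : (0 : ℝ) ≤ K := Nat.cast_nonneg K
  have hm0 : (0 : ℝ) ≤ m := Nat.cast_nonneg m
  push_cast at hx
  have hx0 : (0 : ℝ) ≤ x := Nat.cast_nonneg x
  have hxm : (x : ℝ) ≤ m := by nlinarith
  have hr0 : 0 ≤ 1 - η ^ 2 / 8 := by nlinarith
  have key := KSTx.main hSUB m x (1 - η / 2) (1 / 2 - η / 2) (η / 4) (1 - η ^ 2 / 8)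
    (by linarith) (by linarith) hr0 (by exact_mod_cast hxm) (by nlinarith) (by nlinarith)
    (by nlinarith) (by linarith) (by linarith) (by nlinarith [sq_nonneg η]) K x 1 le_rfl
  refine key.trans ?_
  apply mul_le_mul_of_nonneg_left _ (Nat.cast_nonneg _)
  have h3 : 0 ≤ (1 - η ^ 2 / 8) ^ K := pow_nonneg hr0 K
  rw [pow_one]
  nlinarith

end Pool.Agent.LuckyMean
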