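import Pool.Agent.Work.MP_d4a4cd_mean.Interface

/-!
# Block WRD: words
-/

set_option autoImplicit false

namespace Pool.Agent.LuckyMean

open Finset
open Pool.Agent.LuckyStirling (T step ftf a length_step)

namespace WRD

theorem H_last (M : ℕ) (f : List Bool → ℕ) : ∀ u : List Bool,
    H (M + 1) f u = H M (fun v => ∑ g ∈ range (v.length + 1), f (step v g)) u := by
  induction M with
  | zero => intro u; rfl
  | succ M ih =>
    intro u
    have e1 : H (M + 1 + 1) f u = ∑ g ∈ range (u.length + 1), H (M + 1) f (step u g) := rfl
    have e2 : H (M + 1) (fun v => ∑ g ∈ range (v.length + 1), f (step v g)) u =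
      ∑ g ∈ range (u.length + 1),
        H M (fun v => ∑ g ∈ range (v.length + 1), f (step v g)) (step u g) := rfl
    rw [e1, e2]
    exact Finset.sum_congr rfl (fun g _ => ih (step u g))

theorem H_congr (M : ℕ) (f f' : List Bool → ℕ) : ∀ u : List Bool,
    (∀ v : List Bool, v.length = u.length + 2 * M → f v = f' v) → H M f u = H M f' u := by
  induction M with
  | zero => intro u h; exact h u (by simp)
  | succ M ih =>
    intro u h
    have e1 : H (M + 1) f u = ∑ g ∈ range (u.length + 1), H M f (step u g) := rfl
    have e2 : H (M + 1) f' u = ∑ g ∈ range (u.length + 1), H M f' (step u g) := rfl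
    rw [e1, e2]
    refine Finset.sum_congr rfl (fun g _ => ih (step u g) (fun v hv => h v ?_))
    rw [hv, length_step]
    ring

theorem H_lin (M : ℕ) (f g h : List Bool → ℕ) (a b c : ℕ) : ∀ u : List Bool,
    H M (fun v => a * f v + b * g v + c * h v) u = a * H M f u + b * H M g u + c * H M h u := by
  induction M with
  | zero => intro u; rfl
  | succ M ih =>
    intro u
    have e : ∀ f : List Bool → ℕ,
      H (M + 1) f u = ∑ g ∈ range (u.length + 1), H M f (step u g) := fun _ => rfl
    rw [e, e, e, e, Finset.mul_sum, Finset.mul_sum, Finset.mul_sum, ← Finset.sum_add_distrib,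
      ← Finset.sum_add_distrib]
    exact Finset.sum_congr rfl (fun g _ => ih (step u g))

theorem H_zero (M : ℕ) : ∀ u : List Bool, H M (fun _ => 0) u = 0 := by
  induction M with
  | zero => intro u; rfl
  | succ M ih =>
    intro u
    have e : H (M + 1) (fun _ => 0) u =
      ∑ g ∈ range (u.length + 1), H M (fun _ => 0) (step u g) := rfl
    rw [e]
    exact Finset.sum_eq_zero (fun g _ => ih (step u g))

end WRD

theorem p_WRD (hREC : S_REC) : S_WRD := by
  intro M
  induction M with
  | zero =>
    intro x k hx
    cases k with
    | zero => rfl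
    | succ k =>
      have e : H 0 (ind x (k + 1)) [] = ind x (k + 1) [] := rfl
      rw [e]
      unfold ind
      rw [List.take_nil, List.count_nil, if_pos (Nat.succ_pos k)]
      rfl
  | succ M ih =>
    intro x k hx
    cases k with
    | zero =>
      have e : ind x 0 = fun _ => 0 := by
        funext u
        unfold ind
        exact if_neg (Nat.not_lt_zero _)
      rw [e, WRD.H_zero]
      rfl
    | succ k =>
      rw [WRD.H_last]
      have e : H M (fun v => ∑ g ∈ range (v.length + 1), ind x (k + 1) (step v g)) [] =
          H M (fun v => (x - 1) * ind (x - 2) k v +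
            (if 1 ≤ x ∧ x ≤ 2 * M + 1 then 1 else 0) * ind (x - 1) (k + 1) v +
            (2 * M + 1 - x) * ind x (k + 2) v) [] := by
        apply WRD.H_congr
        intro v hv
        have hv' : v.length = 2 * M := by simpa using hv
        simp only [hv']
        rw [hREC M x k v hv' (by omega)]
        congr 2
        split_ifs
        · rw [one_mul]
        · rw [zero_mul]
      rw [e, WRD.H_lin]
      have hF : F (M + 1) x (k + 1) = (x - 1) * F M (x - 2) k +
        (if 1 ≤ x ∧ x ≤ 2 * M + 1 then F M (x - 1) (k + 1) else 0) +
        (2 * M + 1 - x) * F M x (k + 2) := rfl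
      rw [hF, ih (x - 2) k (by omega)]
      congr 1
      · congr 1
        split_ifs with hc
        · rw [one_mul, ih (x - 1) (k + 1) (by omega)]
        · rw [zero_mul]
      · by_cases hx2 : x ≤ 2 * M
        · rw [ih x (k + 2) hx2]
        · have : 2 * M + 1 - x = 0 := by omega
          rw [this, zero_mul, zero_mul]

end Pool.Agent.LuckyMean
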