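import Pool.Agent.Work.MP_d4a4cd_mean.Interface2
import Pool.Agent.Work.MP_d4a4cd_mean.B_WRD

/-!
# Block KWR: words, starting from an arbitrary word
-/

set_option autoImplicit false

namespace Pool.Agent.LuckyMean

open Finset
open Pool.Agent.LuckyStirling (T step ftf a length_step)

theorem p_KWR (hREC : S_REC) : S_KWR := by
  intro K m
  induction K with
  | zero =>
    intro x k v hv hx
    cases k with
    | zero =>
      have e : H 0 (ind x 0) v = ind x 0 v := rfl
      rw [e]
      unfold ind
      rw [if_neg (Nat.not_lt_zero _)]
      exact Nat.zero_le _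
    | succ k =>
      have e : H 0 (ind x (k + 1)) v = ind x (k + 1) v := rfl
      have e2 : FK 0 (m + 0) x (k + 1) = 1 := rfl
      rw [e, e2]
      unfold ind
      split_ifs
      · exact le_rfl
      · exact Nat.zero_le _
  | succ K ih =>
    intro x k v hv hx
    cases k with
    | zero =>
      have e : ind x 0 = fun _ => 0 := by
        funext u
        unfold ind
        exact if_neg (Nat.not_lt_zero _)
      rw [e, WRD.H_zero]
      exact Nat.zero_le _
    | succ k =>
      rw [WRD.H_last]
      have e : H K (fun u => ∑ g ∈ range (u.length + 1), ind x (k + 1) (step u g)) v =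
          H K (fun u => (x - 1) * ind (x - 2) k u +
            (if 1 ≤ x ∧ x ≤ 2 * (m + K) + 1 then 1 else 0) * ind (x - 1) (k + 1) u +
            (2 * (m + K) + 1 - x) * ind x (k + 2) u) v := by
        apply WRD.H_congr
        intro u hu
        have hu' : u.length = 2 * (m + K) := by rw [hu, hv]; ring
        simp only [hu']
        rw [hREC (m + K) x k u hu' (by omega)]
        congr 2
        split_ifs
        · rw [one_mul]
        · rw [zero_mul]
      rw [e, WRD.H_lin]
      have hF : FK (K + 1) (m + (K + 1)) x (k + 1) = (x - 1) * FK K (m + K) (x - 2) k +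
        (if 1 ≤ x ∧ x ≤ 2 * (m + K) + 1 then FK K (m + K) (x - 1) (k + 1) else 0) +
        (2 * (m + K) + 1 - x) * FK K (m + K) x (k + 2) := rfl
      rw [hF]
      refine Nat.add_le_add (Nat.add_le_add ?_ ?_) ?_
      · exact Nat.mul_le_mul le_rfl (ih (x - 2) k v hv (by omega))
      · split_ifs with hc
        · rw [one_mul]
          exact ih (x - 1) (k + 1) v hv (by omega)
        · rw [zero_mul]
      · by_cases hx2 : x ≤ 2 * (m + K)
        · exact Nat.mul_le_mul le_rfl (ih x (k + 2) v hv hx2)
        · have : 2 * (m + K) + 1 - x = 0 := by omega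
          rw [this, zero_mul, zero_mul]

end Pool.Agent.LuckyMean
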