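import Pool.Agent.Work.MP_d4a4cd_mean.Interface2

/-!
# The law of large numbers for the number of lucky cars, block LLN (typed by helper98)
-/

set_option autoImplicit false

namespace Pool.Agent.LuckyMean

open Finset
open Pool.Agent.LuckyStirling (T step ftf a)

theorem p_LLN (hMAIN : S_MAIN) (hSCD : S_SCD) : S_LLN := by
  intro δ hδ τ hτ
  obtain ⟨C1, hC1⟩ := hMAIN
  have hε : 0 < τ * δ ^ 2 / 2 := by positivity
  obtain ⟨C2, hC2⟩ := hSCD (τ * δ ^ 2 / 2) hε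
  have hlog1 := Real.log_two_gt_d9
  have hlog2 := Real.log_two_lt_d9
  generalize hc : 1 - Real.log 2 = c at hC1 hC2
  have hc0 : 0 < c := by rw [← hc]; linarith
  have hc1 : c ≤ 1 := by rw [← hc]; linarith
  set C3 : ℝ := |C2 + 2 * c * C1| with hC3
  have hC30 : 0 ≤ C3 := abs_nonneg _
  refine ⟨⌈(2 * C3 / (τ * δ ^ 2)) ^ 2⌉₊ + 1, fun n hn => ?_⟩
  have hn1 : 1 ≤ n := by omega
  have hn0 : (0 : ℝ) < n := by exact_mod_cast hn1
  have hsq : 2 * C3 / (τ * δ ^ 2) ≤ Real.sqrt n := by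
    refine (le_abs_self _).trans (Real.abs_le_sqrt ?_)
    calc (2 * C3 / (τ * δ ^ 2)) ^ 2 ≤ (⌈(2 * C3 / (τ * δ ^ 2)) ^ 2⌉₊ : ℝ) := Nat.le_ceil _
      _ ≤ n := by
        have : ⌈(2 * C3 / (τ * δ ^ 2)) ^ 2⌉₊ ≤ n := by omega
        exact_mod_cast this
  have hss : Real.sqrt n * Real.sqrt n = n := Real.mul_self_sqrt hn0.le
  have hs0 : 0 ≤ Real.sqrt n := Real.sqrt_nonneg _
  set A : ℝ := ∑ k ∈ range (n + 1), (a n k : ℝ) with hA
  set M1 : ℝ := ∑ k ∈ range (n + 1), (k : ℝ) * a n k with hM1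
  set M2 : ℝ := ∑ k ∈ range (n + 1), (k : ℝ) ^ 2 * a n k with hM2
  have hA0 : 0 ≤ A := Finset.sum_nonneg fun k _ => Nat.cast_nonneg _
  set S : ℝ := ∑ k ∈ (range (n + 1)).filter (fun k : ℕ => δ * n < |(k : ℝ) - c * n|),
    (a n k : ℝ) with hS
  have hSA : S ≤ A := Finset.sum_le_sum_of_subset_of_nonneg (Finset.filter_subset _ _)
    (fun _ _ _ => Nat.cast_nonneg _)
  rcases hA0.eq_or_lt with h0 | h0
  · rw [← h0, mul_zero]
    linarith
  · have h1 : |M1 / A - c * n| ≤ C1 * Real.sqrt n := hC1 n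
    have h2 : c * n - C1 * Real.sqrt n ≤ M1 / A := by
      have := (abs_le.1 h1).1
      linarith
    rw [le_div_iff₀ h0] at h2
    have h3 : M2 ≤ (c * (c + τ * δ ^ 2 / 2) * (n : ℝ) ^ 2 + C2 * n * Real.sqrt n) * A := hC2 n
    have h4 : (δ * n) ^ 2 * S ≤ M2 - 2 * c * n * M1 + c ^ 2 * (n : ℝ) ^ 2 * A := by
      calc (δ * n) ^ 2 * S =
          ∑ k ∈ (range (n + 1)).filter (fun k : ℕ => δ * n < |(k : ℝ) - c * n|),
            (δ * n) ^ 2 * (a n k : ℝ) := by rw [hS, Finset.mul_sum]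
        _ ≤ ∑ k ∈ (range (n + 1)).filter (fun k : ℕ => δ * n < |(k : ℝ) - c * n|),
            ((k : ℝ) - c * n) ^ 2 * (a n k : ℝ) := by
            apply Finset.sum_le_sum
            intro k hk
            have h5 := (Finset.mem_filter.1 hk).2
            apply mul_le_mul_of_nonneg_right _ (Nat.cast_nonneg _)
            rw [← sq_abs ((k : ℝ) - c * n)]
            exact pow_le_pow_left₀ (by positivity) h5.le 2
        _ ≤ ∑ k ∈ range (n + 1), ((k : ℝ) - c * n) ^ 2 * (a n k : ℝ) := by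
            apply Finset.sum_le_sum_of_subset_of_nonneg (Finset.filter_subset _ _)
            intro k _ _
            exact mul_nonneg (sq_nonneg _) (Nat.cast_nonneg _)
        _ = M2 - 2 * c * n * M1 + c ^ 2 * (n : ℝ) ^ 2 * A := by
            rw [hM2, hM1, hA, Finset.mul_sum, Finset.mul_sum, ← Finset.sum_sub_distrib,
              ← Finset.sum_add_distrib]
            apply Finset.sum_congr rfl
            intro k _
            ring
    have h5 : 2 * c * n * ((c * n - C1 * Real.sqrt n) * A) ≤ 2 * c * n * M1 :=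
      mul_le_mul_of_nonneg_left h2 (by positivity)
    have h6 : (C2 + 2 * c * C1) * (n * Real.sqrt n) ≤ C3 * (n * Real.sqrt n) :=
      mul_le_mul_of_nonneg_right (le_abs_self _) (by positivity)
    have h7 : C3 * (n * Real.sqrt n) ≤ τ * δ ^ 2 / 2 * (n : ℝ) ^ 2 := by
      have h8 : C3 ≤ τ * δ ^ 2 / 2 * Real.sqrt n := by
        rw [div_le_iff₀ (by positivity)] at hsq
        linarith
      calc C3 * (n * Real.sqrt n) ≤ (τ * δ ^ 2 / 2 * Real.sqrt n) * (n * Real.sqrt n) :=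
            mul_le_mul_of_nonneg_right h8 (by positivity)
        _ = τ * δ ^ 2 / 2 * (n * (Real.sqrt n * Real.sqrt n)) := by ring
        _ = τ * δ ^ 2 / 2 * (n : ℝ) ^ 2 := by rw [hss]; ring
    have h9 : c * (τ * δ ^ 2 / 2) * (n : ℝ) ^ 2 ≤ 1 * (τ * δ ^ 2 / 2) * (n : ℝ) ^ 2 := by
      apply mul_le_mul_of_nonneg_right _ (by positivity)
      exact mul_le_mul_of_nonneg_right hc1 hε.le
    have h10 : c * (τ * δ ^ 2 / 2) * (n : ℝ) ^ 2 + (C2 + 2 * c * C1) * (n * Real.sqrt n) ≤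
        τ * δ ^ 2 * (n : ℝ) ^ 2 := by linarith
    have h11 := mul_le_mul_of_nonneg_right h10 h0.le
    have h12 : (δ * n) ^ 2 * S ≤ (δ * n) ^ 2 * (τ * A) := by
      calc (δ * n) ^ 2 * S ≤ M2 - 2 * c * n * M1 + c ^ 2 * (n : ℝ) ^ 2 * A := h4
        _ ≤ (c * (c + τ * δ ^ 2 / 2) * (n : ℝ) ^ 2 + C2 * n * Real.sqrt n) * A -
            2 * c * n * ((c * n - C1 * Real.sqrt n) * A) + c ^ 2 * (n : ℝ) ^ 2 * A := by linarith
        _ = (c * (τ * δ ^ 2 / 2) * (n : ℝ) ^ 2 + (C2 + 2 * c * C1) * (n * Real.sqrt n)) * A := by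
            ring
        _ ≤ τ * δ ^ 2 * (n : ℝ) ^ 2 * A := h11
        _ = (δ * n) ^ 2 * (τ * A) := by ring
    exact le_of_mul_le_mul_left h12 (by positivity)

end Pool.Agent.LuckyMean
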