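import Pool.Agent.Work.MP_d4a4cd_mean.Interface

/-!
# LOG: harmonic numbers (helper91)
-/

set_option autoImplicit false

namespace Pool.Agent.LuckyMean

open Finset

namespace LOG

theorem up (m : ℕ) (hm : 1 ≤ m) (n : ℕ) :
    ∑ i ∈ Ioc m (m + n), 1 / (i : ℝ) ≤ Real.log ((m : ℝ) + n) - Real.log m := by
  induction n with
  | zero => simp
  | succ n ih =>
    rw [← add_assoc, Finset.sum_Ioc_succ_top (by omega)]
    have hN : (0 : ℝ) < (m : ℝ) + n := by positivity
    have hN1 : (0 : ℝ) < (m : ℝ) + n + 1 := by positivity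
    have h1 := Real.one_sub_inv_le_log_of_pos (x := ((m : ℝ) + n + 1) / (m + n)) (by positivity)
    rw [Real.log_div hN1.ne' hN.ne'] at h1
    have h2 : 1 - (((m : ℝ) + n + 1) / (m + n))⁻¹ = 1 / ((m : ℝ) + n + 1) := by
      field_simp
      ring
    rw [h2] at h1
    push_cast
    rw [← add_assoc]
    linarith

theorem low (m : ℕ) (n : ℕ) :
    Real.log ((m : ℝ) + n + 1) - Real.log (m + 1) ≤ ∑ i ∈ Ioc m (m + n), 1 / (i : ℝ) := by
  induction n with
  | zero => simp
  | succ n ih =>
    rw [← add_assoc, Finset.sum_Ioc_succ_top (by omega)]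
    have hN1 : (0 : ℝ) < (m : ℝ) + n + 1 := by positivity
    have hN2 : (0 : ℝ) < (m : ℝ) + (n + 1) + 1 := by positivity
    have h1 := Real.log_le_sub_one_of_pos (x := ((m : ℝ) + (n + 1) + 1) / (m + n + 1))
      (by positivity)
    rw [Real.log_div hN2.ne' hN1.ne'] at h1
    have h2 : ((m : ℝ) + (n + 1) + 1) / (m + n + 1) - 1 = 1 / ((m : ℝ) + n + 1) := by
      field_simp
      ring
    rw [h2] at h1
    push_cast
    linarith

end LOG

theorem p_LOG : S_LOG := by
  intro m hm
  have hm0 : (0 : ℝ) < m := by exact_mod_cast hm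
  have h1 := LOG.up m hm m
  have h2 := LOG.low m m
  have hmm : m + m = 2 * m := by ring
  rw [hmm] at h1 h2
  have e1 : Real.log ((m : ℝ) + m) - Real.log m = Real.log 2 := by
    rw [← two_mul, Real.log_mul (by norm_num) hm0.ne']
    ring
  rw [e1] at h1
  have e2 : Real.log 2 - 1 / (2 * (m : ℝ) + 1) ≤
      Real.log ((m : ℝ) + m + 1) - Real.log (m + 1) := by
    have h3 := Real.log_le_sub_one_of_pos (x := (2 * ((m : ℝ) + 1)) / (2 * m + 1)) (by positivity)
    rw [Real.log_div (by positivity) (by positivity), Real.log_mul (by norm_num) (by positivity)]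
      at h3
    have h4 : (2 * ((m : ℝ) + 1)) / (2 * m + 1) - 1 = 1 / (2 * (m : ℝ) + 1) := by
      field_simp
      ring
    rw [h4] at h3
    rw [← two_mul]
    linarith
  have h5 := e2.trans h2
  have h6 : 2 * (m : ℝ) * (1 / (2 * (m : ℝ) + 1)) ≤ 1 := by
    rw [mul_one_div, div_le_one (by positivity)]
    linarith
  rw [abs_le]
  constructor
  · have h7 := mul_le_mul_of_nonneg_left h5 (by positivity : (0 : ℝ) ≤ 2 * m)
    rw [mul_sub] at h7
    linarith
  · have h8 := mul_le_mul_of_nonneg_left h1 (by positivity : (0 : ℝ) ≤ 2 * m)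
    linarith

end Pool.Agent.LuckyMean
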