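import Pool.Agent.Work.MP_d4a4cd_mean.Interface

set_option autoImplicit false

namespace Pool.Agent.LuckyMean

open Finset

theorem LOW.df_succ (M : ℕ) : df (M + 1) = df M * (2 * M + 1) := by
  unfold df
  rw [Finset.prod_range_succ]

theorem LOW.U_zero (x y : ℕ) : U x y 0 = 1 := by
  unfold U R
  simp

theorem LOW.F_zero (M x : ℕ) : F M x 0 = 0 := by
  cases M <;> rfl

theorem LOW.U_origin (k : ℕ) : U 0 0 (k + 1) = 0 := by
  unfold U
  rw [if_neg (by omega)]

theorem LOW.F_succ (M x k : ℕ) : F (M + 1) x (k + 1) = (x - 1) * F M (x - 2) k +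
    (if 1 ≤ x ∧ x ≤ 2 * M + 1 then F M (x - 1) (k + 1) else 0) +
    (2 * M + 1 - x) * F M x (k + 2) := by
  rw [F]

theorem LOW.main (hSUP : S_SUP) : ∀ M x k : ℕ, x ≤ 2 * M →
    (df M : ℝ) * (1 - U x (2 * M - x) k) ≤ F M x k := by
  intro M
  induction M with
  | zero =>
    intro x k hx
    have hx0 : x = 0 := by omega
    subst hx0
    cases k with
    | zero =>
      rw [LOW.U_zero, LOW.F_zero]
      simp
    | succ k =>
      have h1 : U 0 (2 * 0 - 0) (k + 1) = 0 := LOW.U_origin k
      rw [h1]
      have h2 : F 0 0 (k + 1) = 1 := rfl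
      rw [h2]
      simp [df]
  | succ M ih =>
    intro x k hx
    cases k with
    | zero =>
      rw [LOW.U_zero, LOW.F_zero]
      simp
    | succ k =>
      obtain ⟨y, hy⟩ : ∃ y, y = 2 * (M + 1) - x := ⟨_, rfl⟩
      rw [← hy]
      have hxy : x + y = 2 * M + 2 := by omega
      by_cases hU : U x y (k + 1) ≤ 1
      · have hS := hSUP x y k (by omega) hU
        have hd : (0 : ℝ) ≤ (df M : ℝ) := Nat.cast_nonneg _
        have hc : ((x : ℝ) + y - 1) = 2 * M + 1 := by
          have : ((x + y : ℕ) : ℝ) = ((2 * M + 2 : ℕ) : ℝ) := by rw [hxy]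
          push_cast at this
          linarith
        rw [hc] at hS
        -- first term
        have t1 : ((x - 1 : ℕ) : ℝ) * ((df M : ℝ) * (1 - U (x - 2) y k)) ≤
            ((x - 1 : ℕ) : ℝ) * (F M (x - 2) k : ℝ) := by
          by_cases h2 : 2 ≤ x
          · have h := ih (x - 2) k (by omega)
            have e : 2 * M - (x - 2) = y := by omega
            rw [e] at h
            exact mul_le_mul_of_nonneg_left h (Nat.cast_nonneg _)
          · have e : x - 1 = 0 := by omega
            rw [e]
            simp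
        have t3 : ((y - 1 : ℕ) : ℝ) * ((df M : ℝ) * (1 - U x (y - 2) (k + 2))) ≤
            ((y - 1 : ℕ) : ℝ) * (F M x (k + 2) : ℝ) := by
          by_cases h2 : 2 ≤ y
          · have h := ih x (k + 2) (by omega)
            have e : 2 * M - x = y - 2 := by omega
            rw [e] at h
            exact mul_le_mul_of_nonneg_left h (Nat.cast_nonneg _)
          · have e : y - 1 = 0 := by omega
            rw [e]
            simp
        have ey : 2 * M + 1 - x = y - 1 := by omega
        rw [LOW.F_succ, ey, LOW.df_succ]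
        push_cast
        by_cases h12 : 1 ≤ x ∧ 1 ≤ y
        · have h12' : 1 ≤ x ∧ x ≤ 2 * M + 1 := ⟨h12.1, by omega⟩
          rw [if_pos h12']
          rw [if_pos h12] at hS
          have t2 := ih (x - 1) (k + 1) (by omega)
          have e : 2 * M - (x - 1) = y - 1 := by omega
          rw [e] at t2
          have hsum : ((x - 1 : ℕ) : ℝ) + 1 + ((y - 1 : ℕ) : ℝ) = 2 * M + 1 := by
            have : (x - 1) + 1 + (y - 1) = 2 * M + 1 := by omega
            exact_mod_cast this
          have key := mul_le_mul_of_nonneg_left hS hd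
          have hsum2 := congrArg (fun t => (df M : ℝ) * t) hsum
          nlinarith [t1, t2, t3, key, hsum2]
        · have h12' : ¬ (1 ≤ x ∧ x ≤ 2 * M + 1) := by
            intro h
            apply h12
            exact ⟨h.1, by omega⟩
          rw [if_neg h12']
          rw [if_neg h12] at hS
          have hsum : ((x - 1 : ℕ) : ℝ) + ((y - 1 : ℕ) : ℝ) = 2 * M + 1 := by
            have : (x - 1) + (y - 1) = 2 * M + 1 := by omega
            exact_mod_cast this
          have key := mul_le_mul_of_nonneg_left hS hd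
          have hsum2 := congrArg (fun t => (df M : ℝ) * t) hsum
          nlinarith [t1, t3, key, hsum2]
      · push Not at hU
        have h0 : (0 : ℝ) ≤ (F (M + 1) x (k + 1) : ℝ) := Nat.cast_nonneg _
        have hd : (0 : ℝ) ≤ (df (M + 1) : ℝ) := Nat.cast_nonneg _
        have : (df (M + 1) : ℝ) * (1 - U x y (k + 1)) ≤ 0 :=
          mul_nonpos_of_nonneg_of_nonpos hd (by linarith)
        linarith

/-- block LOW -/
theorem p_LOW (hSUP : S_SUP) : S_LOW := LOW.main hSUP

end Pool.Agent.LuckyMean
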