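import Pool.Agent.Work.MP_d4a4cd_mean.Interface

/-!
# Block REC: the last insertion
-/

set_option autoImplicit false

namespace Pool.Agent.LuckyMean

open Finset
open Pool.Agent.LuckyStirling (T step ftf a)

namespace REC

theorem count_ftf (w : List Bool) : ∀ x : ℕ,
    ((ftf w).take x).count true = (w.take x).count true - 1 := by
  induction w with
  | nil => intro x; simp [ftf]
  | cons b u ih =>
    intro x
    cases x with
    | zero => simp
    | succ x =>
      cases b with
      | true => simp [ftf]
      | false => simp [ftf, ih x]

theorem sum_split (A B C x : ℕ) : ∀ n : ℕ, x ≤ n + 1 →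
    ∑ g ∈ range n, (if g + 2 ≤ x then A else if g + 1 = x then B else C) =
      (x - 1) * A + (if 1 ≤ x ∧ x ≤ n then B else 0) + (n - x) * C := by
  intro n
  induction n with
  | zero =>
    intro hx
    have h1 : x - 1 = 0 := by omega
    have h2 : ¬ (1 ≤ x ∧ x ≤ 0) := by omega
    rw [Finset.range_zero, Finset.sum_empty, h1, if_neg h2, Nat.zero_sub]
    ring
  | succ n ih =>
    intro hx
    by_cases h : x = n + 2
    · have h0 : ∀ g ∈ range (n + 1), (if g + 2 ≤ x then A else if g + 1 = x then B else C) = A := by
        intro g hg
        rw [mem_range] at hg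
        rw [if_pos (by omega)]
      rw [Finset.sum_congr rfl h0, Finset.sum_const, card_range, smul_eq_mul,
        if_neg (by omega : ¬ (1 ≤ x ∧ x ≤ n + 1)), show x - 1 = n + 1 by omega,
        show n + 1 - x = 0 by omega]
      ring
    · rw [Finset.sum_range_succ, ih (by omega), if_neg (by omega : ¬ n + 2 ≤ x)]
      by_cases h2 : n + 1 = x
      · rw [if_pos h2, if_neg (by omega : ¬ (1 ≤ x ∧ x ≤ n)),
          if_pos (by omega : 1 ≤ x ∧ x ≤ n + 1), show n - x = 0 by omega,
          show n + 1 - x = 0 by omega]
        ring
      · rw [if_neg h2]
        have h3 : (if 1 ≤ x ∧ x ≤ n then B else 0) = if 1 ≤ x ∧ x ≤ n + 1 then B else 0 := by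
          by_cases h4 : 1 ≤ x
          · rw [if_pos (by omega), if_pos (by omega)]
          · rw [if_neg (by omega), if_neg (by omega)]
        rw [h3, show n + 1 - x = (n - x) + 1 by omega]
        ring

theorem ind_step (x k g : ℕ) (v : List Bool) (hg : g ≤ v.length) :
    ind x (k + 1) (step v g) =
      if g + 2 ≤ x then ind (x - 2) k v else if g + 1 = x then ind (x - 1) (k + 1) v
        else ind x (k + 2) v := by
  unfold ind step
  rw [count_ftf]
  have hl : (v.take g).length = g := by rw [List.length_take]; omega
  by_cases h1 : g + 2 ≤ x
  · obtain ⟨y, rfl⟩ : ∃ y, x = g + 2 + y := ⟨x - (g + 2), by omega⟩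
    rw [if_pos h1]
    have e1 : (v.take g ++ true :: true :: v.drop g).take (g + 2 + y) =
        v.take g ++ true :: true :: (v.drop g).take y := by
      rw [List.take_append, hl, show g + 2 + y - g = y + 2 by omega,
        List.take_of_length_le (by rw [hl]; omega)]
      rfl
    have e2 : v.take (g + 2 + y - 2) = v.take g ++ (v.drop g).take y := by
      rw [show g + 2 + y - 2 = g + y by omega, List.take_add]
    rw [e1, e2, List.count_append, List.count_append, List.count_cons_self, List.count_cons_self]
    by_cases h2 : List.count true (v.take g) + List.count true ((v.drop g).take y) < k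
    · rw [if_pos h2, if_pos (by omega)]
    · rw [if_neg h2, if_neg (by omega)]
  · rw [if_neg h1]
    by_cases h2 : g + 1 = x
    · rw [if_pos h2]
      subst h2
      have e1 : (v.take g ++ true :: true :: v.drop g).take (g + 1) = v.take g ++ [true] := by
        rw [List.take_append, hl, show g + 1 - g = 1 by omega,
          List.take_of_length_le (by rw [hl]; omega)]
        rfl
      rw [e1, show g + 1 - 1 = g by omega, List.count_append]
      simp
    · rw [if_neg h2]
      have e1 : (v.take g ++ true :: true :: v.drop g).take x = v.take x := by
        rw [List.take_append, hl, show x - g = 0 by omega, List.take_zero, List.append_nil,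
          List.take_take, Nat.min_eq_left (by omega)]
      rw [e1]
      by_cases h3 : List.count true (v.take x) < k + 2
      · rw [if_pos h3, if_pos (by omega)]
      · rw [if_neg h3, if_neg (by omega)]

end REC

theorem p_REC : S_REC := by
  intro M x k v hv hx
  rw [Finset.sum_congr rfl (fun g hg => REC.ind_step x k g v
    (by rw [hv]; rw [mem_range] at hg; omega))]
  exact REC.sum_split _ _ _ x (2 * M + 1) (by omega)

end Pool.Agent.LuckyMean
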