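import Pool.Agent.Work.MP_d4a4cd_mean.Interface

/-! # TOT: all Stirling permutations -/

set_option autoImplicit false

namespace Pool.Agent.LuckyMean

open Finset
open Pool.Agent.LuckyStirling (T step ftf a a_eq length_step)

namespace TOT

theorem T_zero : ∀ (t : ℕ) (u : List Bool) (j : ℕ), t < j → T t u j = 0 := by
  intro t
  induction t with
  | zero =>
    intro u j hj
    rw [T, if_neg (by omega)]
  | succ t ih =>
    intro u j hj
    rw [T]
    refine sum_eq_zero fun g _ => ?_
    split_ifs
    · rfl
    · exact ih _ _ (by omega)
    · exact ih _ _ (by omega)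

theorem T_sum : ∀ (t : ℕ) (u : List Bool),
    ∑ j ∈ range (t + 1), T t u j = ∏ i ∈ range t, (u.length + 1 + 2 * i) := by
  intro t
  induction t with
  | zero =>
    intro u
    rw [sum_range_one, prod_range_zero, T, if_pos rfl]
  | succ t ih =>
    intro u
    have h1 : ∑ j ∈ range (t + 1 + 1), T (t + 1) u j = ∑ j ∈ range (t + 1 + 1),
        ∑ g ∈ range (u.length + 1), if true ∈ u.take g then
          (if j = 0 then 0 else T t (step u g) (j - 1)) else T t (step u g) j := by
      refine sum_congr rfl fun j _ => ?_
      rw [T]
    have h2 : ∀ g ∈ range (u.length + 1), ∑ j ∈ range (t + 1 + 1),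
        (if true ∈ u.take g then
          (if j = 0 then 0 else T t (step u g) (j - 1)) else T t (step u g) j) =
        ∏ i ∈ range t, (u.length + 1 + 2 * (i + 1)) := by
      intro g _
      have h3 : ∏ i ∈ range t, (u.length + 1 + 2 * (i + 1)) =
          ∑ j ∈ range (t + 1), T t (step u g) j := by
        rw [ih, length_step]
        refine prod_congr rfl fun i _ => ?_
        ring
      rw [h3]
      by_cases h : true ∈ u.take g
      · simp only [if_pos h]
        rw [sum_range_succ', if_pos rfl, add_zero]
        refine sum_congr rfl fun j _ => ?_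
        rw [if_neg (Nat.succ_ne_zero j), Nat.add_sub_cancel]
      · simp only [if_neg h]
        rw [sum_range_succ, T_zero t (step u g) (t + 1) (Nat.lt_succ_self t), add_zero]
    rw [h1, sum_comm, sum_congr rfl h2, sum_const, card_range, smul_eq_mul, prod_range_succ',
      mul_zero, add_zero, mul_comm]

end TOT

theorem p_TOT : S_TOT := by
  intro n
  have h1 : ∑ k ∈ range (n + 1), a n k = ∑ k ∈ range (n + 1), T n [] (n + 1 - 1 - k) := by
    refine sum_congr rfl fun k hk => ?_
    have hk' := mem_range.1 hk
    rw [a_eq n k (by omega), Nat.add_sub_cancel]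
  rw [h1, sum_range_reflect (fun j => T n [] j) (n + 1), TOT.T_sum]
  unfold df
  refine prod_congr rfl fun i _ => ?_
  rw [List.length_nil]
  ring

end Pool.Agent.LuckyMean
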