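import Pool.Agent.Work.MP_d4a4cd_mean.Interface2
import Pool.Agent.Work.MP_d4a4cd_mean.B_TOT

/-! # SCD: second moment -/

set_option autoImplicit false

namespace Pool.Agent.LuckyMean

open Finset
open Pool.Agent.LuckyStirling (T step ftf a a_eq length_step)

namespace SCD

theorem ind_one (g : ℕ) (v : List Bool) : ind g 1 v = if true ∈ v.take g then 0 else 1 := by
  unfold ind
  by_cases h : true ∈ v.take g
  · have h1 : 0 < (v.take g).count true := List.count_pos_iff.2 h
    rw [if_pos h, if_neg (by omega)]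
  · have h1 : ¬ 0 < (v.take g).count true := fun h2 => h (List.count_pos_iff.1 h2)
    rw [if_neg h, if_pos (by omega)]

theorem B2_succ (t : ℕ) (v : List Bool) : B2 (t + 1) v = ∑ g ∈ range (v.length + 1),
    (B2 t (step v g) + ind g 1 v * (2 * B1 t (step v g) +
      ∑ j ∈ range (t + 1), T t (step v g) j)) := by
  have h1 : B2 (t + 1) v = ∑ j ∈ range (t + 1 + 1), ∑ g ∈ range (v.length + 1),
      (t + 1 - j) ^ 2 * (if true ∈ v.take g then
        (if j = 0 then 0 else T t (step v g) (j - 1)) else T t (step v g) j) := by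
    unfold B2
    refine sum_congr rfl fun j _ => ?_
    rw [T, mul_sum]
  rw [h1, sum_comm]
  refine sum_congr rfl fun g _ => ?_
  rw [ind_one]
  by_cases h : true ∈ v.take g
  · simp only [if_pos h]
    rw [sum_range_succ', if_pos rfl, mul_zero, add_zero, zero_mul, add_zero]
    unfold B2
    refine sum_congr rfl fun j _ => ?_
    rw [if_neg (Nat.succ_ne_zero j), Nat.add_sub_cancel, Nat.add_sub_add_right]
  · simp only [if_neg h]
    rw [sum_range_succ, Nat.sub_self, zero_pow (two_ne_zero), zero_mul, add_zero, one_mul]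
    unfold B2 B1
    rw [mul_sum, ← sum_add_distrib, ← sum_add_distrib]
    refine sum_congr rfl fun j hj => ?_
    have hj' : j ≤ t := Nat.lt_succ_iff.1 (mem_range.1 hj)
    have h2 : t + 1 - j = t - j + 1 := by omega
    rw [h2]
    ring

theorem bound {β C : ℝ} (hB : ∀ (m t : ℕ) (v : List Bool), v.length = 2 * m →
    (B1 t v : ℝ) ≤ (β * t + C) * Pn m t) : ∀ (t m : ℕ) (v : List Bool), v.length = 2 * m →
    (B2 t v : ℝ) ≤ ∑ s ∈ range t, (H s lg v : ℝ) *
      (∏ i ∈ Ico (s + 1) t, (2 * (m : ℝ) + 2 * i + 1)) *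
        (2 * (β * ((t : ℝ) - s - 1) + C) + 1) := by
  intro t
  induction t with
  | zero =>
    intro m v _
    unfold B2
    simp
  | succ t ih =>
    intro m v hv
    have hstep : ∀ g, (step v g).length = 2 * (m + 1) := by
      intro g
      rw [length_step, hv]
      ring
    have hT : ∀ g, ∑ j ∈ range (t + 1), T t (step v g) j = Pn (m + 1) t := by
      intro g
      rw [TOT.T_sum, hstep]
      unfold Pn
      refine prod_congr rfl fun i _ => ?_
      ring
    have hP : (Pn (m + 1) t : ℝ) = ∏ i ∈ Ico (0 + 1) (t + 1), (2 * (m : ℝ) + 2 * i + 1) := by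
      rw [prod_Ico_eq_prod_range]
      unfold Pn
      push_cast
      refine prod_congr (by simp) fun i _ => ?_
      ring
    have hsh : ∀ s, ∏ i ∈ Ico (s + 1 + 1) (t + 1), (2 * (m : ℝ) + 2 * i + 1) =
        ∏ i ∈ Ico (s + 1) t, (2 * ((m + 1 : ℕ) : ℝ) + 2 * i + 1) := by
      intro s
      rw [← prod_Ico_add' (fun i : ℕ => 2 * (m : ℝ) + 2 * i + 1) (s + 1) t 1]
      refine prod_congr rfl fun i _ => ?_
      push_cast
      ring
    have hR : ∑ s ∈ range (t + 1), (H s lg v : ℝ) *
        (∏ i ∈ Ico (s + 1) (t + 1), (2 * (m : ℝ) + 2 * i + 1)) *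
          (2 * (β * (((t + 1 : ℕ) : ℝ) - s - 1) + C) + 1) =
        ∑ g ∈ range (v.length + 1), ((∑ s ∈ range t, (H s lg (step v g) : ℝ) *
          (∏ i ∈ Ico (s + 1) t, (2 * ((m + 1 : ℕ) : ℝ) + 2 * i + 1)) *
            (2 * (β * ((t : ℝ) - s - 1) + C) + 1)) +
          (ind g 1 v : ℝ) * ((2 * (β * t + C) + 1) * (Pn (m + 1) t : ℝ))) := by
      rw [sum_range_succ', sum_add_distrib, sum_comm, ← sum_mul]
      congr 1
      · refine sum_congr rfl fun s _ => ?_
        rw [hsh, ← sum_mul, ← sum_mul]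
        have h1 : (H (s + 1) lg v : ℝ) = ∑ g ∈ range (v.length + 1), (H s lg (step v g) : ℝ) := by
          rw [H]
          push_cast
          rfl
        rw [h1]
        push_cast
        ring
      · have h1 : (H 0 lg v : ℝ) = ∑ g ∈ range (v.length + 1), (ind g 1 v : ℝ) := by
          rw [H]
          unfold lg
          push_cast
          rfl
        rw [h1, hP]
        push_cast
        ring
    rw [hR, B2_succ]
    push_cast
    refine sum_le_sum fun g _ => ?_
    refine add_le_add ?_ ?_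
    · have := ih (m + 1) (step v g) (hstep g)
      push_cast at this
      exact this
    · refine mul_le_mul_of_nonneg_left ?_ (Nat.cast_nonneg _)
      have h1 := hB (m + 1) t (step v g) (hstep g)
      have h2 : (∑ j ∈ range (t + 1), (T t (step v g) j : ℝ)) = Pn (m + 1) t := by
        rw [← hT g]
        push_cast
        rfl
      rw [h2]
      linarith

theorem sum_sqrt (n : ℕ) : ∑ s ∈ range n, 1 / Real.sqrt ((s : ℝ) + 1) ≤ 2 * Real.sqrt n := by
  induction n with
  | zero => simp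
  | succ n ih =>
    rw [sum_range_succ]
    push_cast
    have ha : Real.sqrt ((n : ℝ) + 1) ^ 2 = (n : ℝ) + 1 := Real.sq_sqrt (by positivity)
    have hb : Real.sqrt (n : ℝ) ^ 2 = (n : ℝ) := Real.sq_sqrt (by positivity)
    have ha0 : 0 < Real.sqrt ((n : ℝ) + 1) := Real.sqrt_pos.2 (by positivity)
    have h1 : 1 / Real.sqrt ((n : ℝ) + 1) ≤
        2 * Real.sqrt ((n : ℝ) + 1) - 2 * Real.sqrt n := by
      rw [div_le_iff₀ ha0]
      nlinarith [sq_nonneg (Real.sqrt ((n : ℝ) + 1) - Real.sqrt n)]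
    linarith

theorem sum_lin (c : ℝ) (n : ℕ) : ∑ s ∈ range n, (c - s - 1) = c * n - n * (n + 1) / 2 := by
  induction n with
  | zero => simp
  | succ n ih =>
    rw [sum_range_succ, ih]
    push_cast
    ring

theorem df_split {s n : ℕ} (h : s < n) :
    (df s : ℝ) * (2 * s + 1) * ∏ i ∈ Ico (s + 1) n, (2 * (i : ℝ) + 1) = df n := by
  have h1 := prod_range_mul_prod_Ico (fun i : ℕ => 2 * (i : ℝ) + 1) (show s + 1 ≤ n from h)
  rw [prod_range_succ] at h1
  unfold df
  push_cast
  exact h1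

theorem df_pos (n : ℕ) : (0 : ℝ) < df n := by
  unfold df
  push_cast
  exact prod_pos fun i _ => by positivity

end SCD

theorem p_SCD (hBB1 : S_BB1) (hSUM : S_SUM) (hWSU : S_WSU) (hTOT : S_TOT) : S_SCD := by
  intro ε hε
  obtain ⟨C, hC, hB⟩ := hBB1 ε hε
  obtain ⟨C1, hC1⟩ := hSUM
  have hC1n : 0 ≤ C1 := by
    have h1 := (abs_nonneg _).trans (hC1 0)
    simpa using h1
  have hlog : Real.log 2 < 1 := by linarith [Real.log_two_lt_d9]
  set lam : ℝ := 1 - Real.log 2 with hlam
  have hl0 : 0 < lam := by rw [hlam]; linarith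
  have hb0 : 0 < lam + ε := by linarith
  set β : ℝ := lam + ε with hβ
  refine ⟨lam * (2 * C + 1) + 2 * C1 * (2 * β + (2 * C + 1)), fun n => ?_⟩
  have hD : 0 < 2 * C + 1 := by linarith
  -- the second moment is `B2 n []`
  have h1 : (∑ k ∈ range (n + 1), (k : ℝ) ^ 2 * a n k) = B2 n [] := by
    have h2 : ∑ k ∈ range (n + 1), k ^ 2 * a n k = B2 n [] := by
      unfold B2
      rw [← sum_range_reflect (fun j => (n - j) ^ 2 * T n [] j) (n + 1)]
      refine sum_congr rfl fun k hk => ?_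
      have hk' := mem_range.1 hk
      rw [a_eq n k (by omega), Nat.add_sub_cancel, Nat.sub_sub_self (by omega)]
    rw [← h2]
    push_cast
    rfl
  have h2 : (∑ k ∈ range (n + 1), (a n k : ℝ)) = df n := by
    rw [← hTOT n]
    push_cast
    rfl
  rw [h1, h2]
  have h3 := SCD.bound hB n 0 [] (by simp)
  have hterm : ∀ s ∈ range n, (H s lg [] : ℝ) *
      (∏ i ∈ Ico (s + 1) n, (2 * ((0 : ℕ) : ℝ) + 2 * i + 1)) *
        (2 * (β * ((n : ℝ) - s - 1) + C) + 1) ≤
      df n * (2 * lam * β * ((n : ℝ) - s - 1) + lam * (2 * C + 1) +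
        C1 * (2 * β * n + (2 * C + 1)) * (1 / Real.sqrt ((s : ℝ) + 1))) := by
    intro s hs
    have hsn := mem_range.1 hs
    have hds := SCD.df_pos s
    have hP : (0 : ℝ) < ∏ i ∈ Ico (s + 1) n, (2 * (i : ℝ) + 1) :=
      prod_pos fun i _ => by positivity
    have hP' : ∏ i ∈ Ico (s + 1) n, (2 * ((0 : ℕ) : ℝ) + 2 * i + 1) =
        ∏ i ∈ Ico (s + 1) n, (2 * (i : ℝ) + 1) := by
      refine prod_congr rfl fun i _ => ?_
      rw [Nat.cast_zero, mul_zero, zero_add]
    have hsplit := SCD.df_split hsn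
    have hH : (H s lg [] : ℝ) ≤ df s * (2 * s * lam + C1 * Real.sqrt ((s : ℝ) + 1)) := by
      have h4 := (abs_le.1 (hC1 s)).2
      have h5 : (H s lg [] : ℝ) = ∑ x ∈ range (2 * s + 1), (F s x 1 : ℝ) := by
        rw [hWSU s]
        push_cast
        rfl
      rw [← h5] at h4
      have h6 : (H s lg [] : ℝ) / df s ≤ 2 * s * lam + C1 * Real.sqrt ((s : ℝ) + 1) := by
        linarith
      rw [div_le_iff₀ hds] at h6
      linarith
    have hr0 : 0 < Real.sqrt ((s : ℝ) + 1) := Real.sqrt_pos.2 (by positivity)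
    have hr : Real.sqrt ((s : ℝ) + 1) * Real.sqrt ((s : ℝ) + 1) = (s : ℝ) + 1 :=
      Real.mul_self_sqrt (by positivity)
    set r : ℝ := Real.sqrt ((s : ℝ) + 1) with hrdef
    have hinv : r = ((s : ℝ) + 1) * (1 / r) := by
      field_simp
      nlinarith
    have hi0 : 0 < 1 / r := by positivity
    have hs0 : (0 : ℝ) ≤ s := Nat.cast_nonneg s
    have hk : 2 * (s : ℝ) * lam + C1 * r ≤ (2 * s + 1) * (lam + C1 * (1 / r)) := by
      have h7 : C1 * r ≤ (2 * (s : ℝ) + 1) * (C1 * (1 / r)) := by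
        have h8 : C1 * r = ((s : ℝ) + 1) * (C1 * (1 / r)) := by
          calc C1 * r = C1 * (((s : ℝ) + 1) * (1 / r)) := by rw [← hinv]
            _ = _ := by ring
        rw [h8]
        exact mul_le_mul_of_nonneg_right (by linarith) (by positivity)
      nlinarith
    have hHP : (H s lg [] : ℝ) * (∏ i ∈ Ico (s + 1) n, (2 * (i : ℝ) + 1)) ≤
        df n * (lam + C1 * (1 / r)) := by
      rw [← hsplit]
      calc (H s lg [] : ℝ) * (∏ i ∈ Ico (s + 1) n, (2 * (i : ℝ) + 1))
          ≤ (df s * (2 * s * lam + C1 * r)) * (∏ i ∈ Ico (s + 1) n, (2 * (i : ℝ) + 1)) :=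
            mul_le_mul_of_nonneg_right hH hP.le
        _ ≤ (df s * ((2 * s + 1) * (lam + C1 * (1 / r)))) *
            (∏ i ∈ Ico (s + 1) n, (2 * (i : ℝ) + 1)) :=
            mul_le_mul_of_nonneg_right (mul_le_mul_of_nonneg_left hk hds.le) hP.le
        _ = _ := by ring
    have hns : (0 : ℝ) ≤ (n : ℝ) - s - 1 := by
      have : ((s + 1 : ℕ) : ℝ) ≤ n := by exact_mod_cast hsn
      push_cast at this
      linarith
    have hq : 0 ≤ 2 * (β * ((n : ℝ) - s - 1) + C) + 1 := by
      have := mul_nonneg hb0.le hns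
      linarith
    rw [hP']
    refine (mul_le_mul_of_nonneg_right hHP hq).trans ?_
    rw [mul_assoc]
    refine mul_le_mul_of_nonneg_left ?_ (SCD.df_pos n).le
    have h9 : C1 * (1 / r) * (2 * (β * ((n : ℝ) - s - 1) + C) + 1) ≤
        C1 * (1 / r) * (2 * β * n + (2 * C + 1)) := by
      refine mul_le_mul_of_nonneg_left ?_ (by positivity)
      nlinarith
    nlinarith
  refine (h3.trans (sum_le_sum hterm)).trans ?_
  rw [← mul_sum, mul_comm _ (df n : ℝ)]
  refine mul_le_mul_of_nonneg_left ?_ (SCD.df_pos n).le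
  rw [sum_add_distrib, sum_add_distrib, ← mul_sum, SCD.sum_lin, sum_const, card_range,
    nsmul_eq_mul, ← mul_sum]
  have hsq := SCD.sum_sqrt n
  rcases Nat.eq_zero_or_pos n with hn | hn
  · subst hn
    simp
  · have hn1 : (1 : ℝ) ≤ n := by exact_mod_cast hn
    have hs1 : 1 ≤ Real.sqrt n := by
      rw [Real.one_le_sqrt]
      exact hn1
    have e1 : C1 * (2 * β * n + (2 * C + 1)) * ∑ s ∈ range n, 1 / Real.sqrt ((s : ℝ) + 1) ≤
        C1 * ((2 * β + (2 * C + 1)) * n) * (2 * Real.sqrt n) := by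
      refine mul_le_mul (mul_le_mul_of_nonneg_left ?_ hC1n) hsq
        (sum_nonneg fun s _ => by positivity) (by positivity)
      nlinarith
    have e2 : (n : ℝ) * (lam * (2 * C + 1)) ≤ lam * (2 * C + 1) * (n * Real.sqrt n) := by
      have : (n : ℝ) ≤ n * Real.sqrt n := by nlinarith
      nlinarith [mul_pos hl0 hD]
    have e3 : 2 * lam * β * ((n : ℝ) * n - n * (n + 1) / 2) ≤ lam * β * (n : ℝ) ^ 2 := by
      have : 0 ≤ lam * β * n := by positivity
      nlinarith
    calc _ ≤ lam * β * (n : ℝ) ^ 2 + lam * (2 * C + 1) * (n * Real.sqrt n) +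
        C1 * ((2 * β + (2 * C + 1)) * n) * (2 * Real.sqrt n) := by
          linarith
      _ = _ := by
          rw [hβ]
          ring

end Pool.Agent.LuckyMean
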