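import Pool.Agent.Work.MP_d4a4cd_mean.Interface

/-!
# Block SUB (MP_d4a4cd_co): the subharmonic function
-/

set_option autoImplicit false

namespace Pool.Agent.LuckyMean

open Finset

namespace SUB

lemma R_nonneg (a b k : ℕ) : 0 ≤ R a b k := by
  unfold R
  exact Finset.prod_nonneg fun i _ => by positivity

lemma R_succ (a b k : ℕ) : R a b (k + 1) = R a b k * (((a : ℝ) + 2 * k) / ((b : ℝ) + 2 * k)) := by
  unfold R
  rw [Finset.prod_range_succ]

lemma R_shift (c e k : ℕ) : R c e (k + 1) = R (c + 2) (e + 2) k * ((c : ℝ) / e) := by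
  unfold R
  rw [Finset.prod_range_succ']
  congr 1
  · refine Finset.prod_congr rfl fun i _ => ?_
    push_cast
    congr 1 <;> ring
  · simp

lemma V_nonneg (x y k : ℕ) : 0 ≤ V x y k := by
  unfold V
  split_ifs
  · exact R_nonneg _ _ _
  · exact le_rfl

lemma TEL (c e : ℕ) (he : 1 ≤ e) (k : ℕ) :
    R (c + 2) (e + 1) k * ((c : ℝ) / (c + 2 * k)) ≤ R (c + 1) e k := by
  rcases Nat.eq_zero_or_pos c with hc | hc
  · rw [hc]
    simp only [Nat.cast_zero, zero_div, mul_zero]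
    exact R_nonneg _ _ _
  have hc' : (0 : ℝ) < c := by exact_mod_cast hc
  have he' : (0 : ℝ) < e := by exact_mod_cast he
  induction k with
  | zero =>
    simp only [R, Finset.range_zero, Finset.prod_empty, Nat.cast_zero, mul_zero, add_zero]
    rw [div_self hc'.ne', mul_one]
  | succ k ih =>
    rw [R_succ, R_succ]
    have hk : (0 : ℝ) ≤ k := Nat.cast_nonneg k
    have h1 : R (c + 2) (e + 1) k * ((((c + 2 : ℕ) : ℝ) + 2 * k) / (((e + 1 : ℕ) : ℝ) + 2 * k)) *
        ((c : ℝ) / (c + 2 * ((k + 1 : ℕ) : ℝ)))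
        = (R (c + 2) (e + 1) k * ((c : ℝ) / (c + 2 * k))) *
          (((c : ℝ) + 2 * k) / ((e : ℝ) + 1 + 2 * k)) := by
      push_cast
      have e1 : (c : ℝ) + 2 + 2 * k ≠ 0 := by positivity
      have e2 : (e : ℝ) + 1 + 2 * k ≠ 0 := by positivity
      have e3 : (c : ℝ) + 2 * k ≠ 0 := by positivity
      have e4 : (c : ℝ) + 2 * (k + 1) = (c : ℝ) + 2 + 2 * k := by ring
      rw [e4]
      field_simp
    rw [h1]
    have h2 : ((c : ℝ) + 2 * k) / ((e : ℝ) + 1 + 2 * k)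
        ≤ (((c + 1 : ℕ) : ℝ) + 2 * k) / ((e : ℝ) + 2 * k) := by
      push_cast
      rw [div_le_div_iff₀ (by positivity) (by positivity)]
      nlinarith
    exact mul_le_mul ih h2 (by positivity) (R_nonneg _ _ _)

end SUB

open SUB in
theorem p_SUB : S_SUB := by
  intro x y k hxy hx
  have hD := V_nonneg (x - 2) y k
  have hN := V_nonneg x (y - 2) (k + 2)
  have hS : 0 ≤ (if 1 ≤ x ∧ 1 ≤ y then V (x - 1) (y - 1) (k + 1) else 0) := by
    split_ifs
    · exact V_nonneg _ _ _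
    · exact le_rfl
  have hD' : 0 ≤ ((x - 1 : ℕ) : ℝ) * V (x - 2) y k := mul_nonneg (Nat.cast_nonneg _) hD
  have hN' : 0 ≤ ((y - 1 : ℕ) : ℝ) * V x (y - 2) (k + 2) := mul_nonneg (Nat.cast_nonneg _) hN
  rcases Nat.lt_or_ge x (2 * (k + 1)) with h0 | h0
  · have h1 : V x y (k + 1) = 0 := by
      unfold V
      rw [if_neg (by omega)]
    rw [h1, mul_zero]
    positivity
  obtain ⟨a, ha⟩ : ∃ a, x = a + 2 * (k + 1) := ⟨x - 2 * (k + 1), by omega⟩
  have hV : V x y (k + 1) = R a (y + 1) (k + 1) := by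
    unfold V
    rw [if_pos (by omega)]
    congr 1
    omega
  have hVD : V (x - 2) y k = R a (y + 1) k := by
    unfold V
    rw [if_pos (by omega)]
    congr 1
    omega
  have hk : (0 : ℝ) ≤ k := Nat.cast_nonneg k
  have hy0 : (0 : ℝ) ≤ y := Nat.cast_nonneg y
  have hxc : ((x - 1 : ℕ) : ℝ) = (x : ℝ) - 1 := by
    rw [Nat.cast_sub (by omega), Nat.cast_one]
  match a, ha, hV, hVD with
  | 0, ha, hV, hVD =>
    have h1 : R 0 (y + 1) (k + 1) = 0 := by
      unfold R
      rw [Finset.prod_range_succ']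
      simp
    rw [hV, h1, mul_zero]
    positivity
  | 1, ha, hV, hVD =>
    have h1 : ((x : ℝ) + y - 1) * V x y (k + 1) ≤ ((x - 1 : ℕ) : ℝ) * V (x - 2) y k := by
      rw [hV, hVD, R_succ, hxc]
      have hP := R_nonneg 1 (y + 1) k
      have hxr : (x : ℝ) = 2 * k + 3 := by
        rw [ha]
        push_cast
        ring
      rw [hxr]
      have h2 : ((2 * (k : ℝ) + 3) + y - 1) * ((((1 : ℕ) : ℝ) + 2 * k) /
          (((y + 1 : ℕ) : ℝ) + 2 * k)) ≤ 2 * (k : ℝ) + 3 - 1 := by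
        push_cast
        rw [← mul_div_assoc, div_le_iff₀ (by positivity)]
        nlinarith
      calc ((2 * (k : ℝ) + 3) + y - 1) * (R 1 (y + 1) k * ((((1 : ℕ) : ℝ) + 2 * k) /
          (((y + 1 : ℕ) : ℝ) + 2 * k)))
          = R 1 (y + 1) k * (((2 * (k : ℝ) + 3) + y - 1) * ((((1 : ℕ) : ℝ) + 2 * k) /
          (((y + 1 : ℕ) : ℝ) + 2 * k))) := by ring
        _ ≤ R 1 (y + 1) k * (2 * (k : ℝ) + 3 - 1) := mul_le_mul_of_nonneg_left h2 hP
        _ = (2 * (k : ℝ) + 3 - 1) * R 1 (y + 1) k := by ring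
    linarith
  | c + 2, ha, hV, hVD =>
    have hc : (0 : ℝ) ≤ c := Nat.cast_nonneg c
    have hxr : (x : ℝ) = c + 2 * k + 4 := by
      rw [ha]
      push_cast
      ring
    have hle : (c : ℝ) + 2 * k + 3 ≤ y := by
      have h3 : c + 2 * k + 3 ≤ y := by omega
      exact_mod_cast h3
    have hSv : (if 1 ≤ x ∧ 1 ≤ y then V (x - 1) (y - 1) (k + 1) else 0)
        = R (c + 1) y (k + 1) := by
      rw [if_pos ⟨by omega, by omega⟩]
      unfold V
      rw [if_pos (by omega)]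
      congr 1
      · omega
      · omega
    have hNv : V x (y - 2) (k + 2) = R c (y - 1) (k + 2) := by
      unfold V
      rw [if_pos (by omega)]
      congr 1
      · omega
      · omega
    have hT := TEL c y (by omega) (k + 1)
    have hNs : R c (y - 1) (k + 2) = R (c + 2) (y + 1) (k + 1) * ((c : ℝ) / (y - 1 : ℕ)) := by
      rw [R_shift c (y - 1) (k + 1)]
      have e1 : y - 1 + 2 = y + 1 := by omega
      rw [e1]
    have hy1 : ((y - 1 : ℕ) : ℝ) ≠ 0 := by
      have h3 : y - 1 ≠ 0 := by omega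
      exact_mod_cast h3
    obtain ⟨r, hr⟩ : ∃ r, r = R (c + 2) (y + 1) (k + 1) := ⟨_, rfl⟩
    have hr0 : 0 ≤ r := by
      rw [hr]
      exact R_nonneg _ _ _
    obtain ⟨u, hu⟩ : ∃ u : ℝ, u = c + 2 + 2 * k := ⟨_, rfl⟩
    have hu0 : 0 < u := by
      rw [hu]
      positivity
    have hP : R (c + 2) (y + 1) k = r * (((y : ℝ) + 1 + 2 * k) / u) := by
      rw [hr, R_succ, hu]
      push_cast
      have e1 : (c : ℝ) + 2 + 2 * k ≠ 0 := by positivity
      have e2 : (y : ℝ) + 1 + 2 * k ≠ 0 := by positivity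
      field_simp
    rw [hSv, hV, hVD, hNv, hNs, ← hr, hP, hxc]
    have hN2 : ((y - 1 : ℕ) : ℝ) * (r * ((c : ℝ) / (y - 1 : ℕ))) = c * r := by
      field_simp
    rw [hN2]
    have hT2 : r * ((c : ℝ) / u) ≤ R (c + 1) y (k + 1) := by
      rw [← hr] at hT
      have e1 : (c : ℝ) + 2 * ((k + 1 : ℕ) : ℝ) = u := by
        rw [hu]
        push_cast
        ring
      rw [e1] at hT
      exact hT
    have hmain : (x : ℝ) + y - 1 ≤ (x - 1) * (((y : ℝ) + 1 + 2 * k) / u) + c / u + c := by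
      have h4 : ((x : ℝ) - 1) * (((y : ℝ) + 1 + 2 * k) / u) + c / u + c
          = (((x : ℝ) - 1) * ((y : ℝ) + 1 + 2 * k) + c + c * u) / u := by
        field_simp
      rw [h4, le_div_iff₀ hu0, hxr, hu]
      nlinarith
    have h5 := mul_le_mul_of_nonneg_left hmain hr0
    nlinarith

end Pool.Agent.LuckyMean
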