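import Pool.Agent.Work.MP_d4a4cd_mean.Interface

/-!
# Block SUM: the mean number of lucky gaps
-/

set_option autoImplicit false

namespace Pool.Agent.LuckyMean

open Finset

namespace SUM

noncomputable def q (m j : ℕ) : ℝ := if j = 0 then 0 else ((j : ℝ) - 1) / (2 * m - j + 1)

theorem sum_q (m : ℕ) :
    ∑ j ∈ range (m + 1), q m j = 2 * (m : ℝ) * ∑ i ∈ Ioc m (2 * m), 1 / (i : ℝ) - m := by
  rw [sum_range_succ']
  have h0 : q m 0 = 0 := by simp [q]
  rw [h0, add_zero]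
  have h1 : ∑ i ∈ Ioc m (2 * m), 1 / (i : ℝ) = ∑ j ∈ range m, 1 / (2 * (m : ℝ) - j) := by
    symm
    refine sum_nbij' (fun j => 2 * m - j) (fun i => 2 * m - i) ?_ ?_ ?_ ?_ ?_
    · intro j hj
      rw [mem_range] at hj
      rw [mem_Ioc]
      omega
    · intro i hi
      rw [mem_Ioc] at hi
      rw [mem_range]
      omega
    · intro j hj
      rw [mem_range] at hj
      show 2 * m - (2 * m - j) = j
      omega
    · intro i hi
      rw [mem_Ioc] at hi
      show 2 * m - (2 * m - i) = i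
      omega
    · intro j hj
      rw [mem_range] at hj
      show 1 / (2 * (m : ℝ) - j) = 1 / ((2 * m - j : ℕ) : ℝ)
      rw [Nat.cast_sub (by omega)]
      push_cast
      rfl
  rw [h1, mul_sum]
  have h2 : ∀ j ∈ range m, q m (j + 1) = 2 * (m : ℝ) * (1 / (2 * (m : ℝ) - j)) - 1 := by
    intro j hj
    rw [mem_range] at hj
    have hj' : (j : ℝ) < m := by exact_mod_cast hj
    have h0m : (0 : ℝ) ≤ m := Nat.cast_nonneg m
    have hpos : (2 * (m : ℝ) - j) ≠ 0 := by
      intro h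
      linarith
    unfold q
    rw [if_neg (by omega)]
    push_cast
    have e : 2 * (m : ℝ) - (j + 1) + 1 = 2 * m - j := by ring
    rw [e, add_sub_cancel_right, eq_sub_iff_add_eq, mul_one_div, div_add_one hpos]
    congr 1
    ring
  rw [sum_congr rfl h2, sum_sub_distrib, sum_const, card_range, nsmul_eq_mul, mul_one]

theorem U_eq {m j : ℕ} (hj : j ≤ m) : U j (2 * m - j) 1 = q m j := by
  unfold U q R
  rcases Nat.eq_zero_or_pos j with h | h
  · subst h
    simp
  · rw [if_pos (by omega), if_neg (by omega), prod_range_one]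
    have e1 : ((j + 1 - 2 * 1 : ℕ) : ℝ) = (j : ℝ) - 1 := by
      rw [show j + 1 - 2 * 1 = j - 1 by omega, Nat.cast_sub (by omega)]
      simp
    have e2 : ((2 * m - j + 1 : ℕ) : ℝ) = 2 * (m : ℝ) - j + 1 := by
      rw [Nat.cast_add, Nat.cast_sub (by omega)]
      push_cast
      ring
    rw [e1, e2]
    simp

theorem V_ge {m j : ℕ} (hj : j ≤ m) : q m j - 1 / ((m : ℝ) + 1) ≤ V j (2 * m - j) 1 := by
  have hm : (0 : ℝ) < (m : ℝ) + 1 := by positivity
  have h1m : 0 ≤ 1 / ((m : ℝ) + 1) := by positivity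
  rcases Nat.lt_or_ge j 2 with h | h
  · have hV : V j (2 * m - j) 1 = 0 := by
      unfold V
      rw [if_neg (by omega)]
    rw [hV]
    have hq : q m j = 0 := by
      interval_cases j <;> simp [q]
    rw [hq]
    linarith
  · have hV : V j (2 * m - j) 1 = ((j : ℝ) - 2) / (2 * (m : ℝ) - j + 1) := by
      unfold V R
      rw [if_pos (by omega), prod_range_one]
      have e1 : ((j - 2 * 1 : ℕ) : ℝ) = (j : ℝ) - 2 := by
        rw [show j - 2 * 1 = j - 2 by omega, Nat.cast_sub (by omega)]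
        simp
      have e2 : ((2 * m - j + 1 : ℕ) : ℝ) = 2 * (m : ℝ) - j + 1 := by
        rw [Nat.cast_add, Nat.cast_sub (by omega)]
        push_cast
        ring
      rw [e1, e2]
      simp
    have hq : q m j = ((j : ℝ) - 1) / (2 * (m : ℝ) - j + 1) := by
      unfold q
      rw [if_neg (by omega)]
    rw [hV, hq]
    have hj' : (j : ℝ) ≤ m := by exact_mod_cast hj
    have hb : (m : ℝ) + 1 ≤ 2 * (m : ℝ) - j + 1 := by linarith
    have h3 : 1 / (2 * (m : ℝ) - j + 1) ≤ 1 / ((m : ℝ) + 1) := one_div_le_one_div_of_le hm hb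
    have e3 : ((j : ℝ) - 2) / (2 * (m : ℝ) - j + 1) =
        ((j : ℝ) - 1) / (2 * (m : ℝ) - j + 1) - 1 / (2 * (m : ℝ) - j + 1) := by
      rw [← sub_div]
      congr 1
      ring
    rw [e3]
    linarith

theorem q_le {m j : ℕ} (hj : j ≤ m) : q m j ≤ 1 := by
  unfold q
  split_ifs with h
  · exact zero_le_one
  · have hj' : (j : ℝ) ≤ m := by exact_mod_cast hj
    have h0m : (0 : ℝ) ≤ m := Nat.cast_nonneg m
    rw [div_le_one (by linarith)]
    linarith

theorem e_le (m i : ℕ) : 2 * (2 * (m : ℝ) + 1) / (2 * (i : ℝ) + 3) ^ 2 ≤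
    ((m : ℝ) + 1) * (1 / ((i : ℝ) + 1) - 1 / ((i : ℝ) + 2)) := by
  have hi : (0 : ℝ) ≤ i := Nat.cast_nonneg i
  have hm : (0 : ℝ) ≤ m := Nat.cast_nonneg m
  have e : ((m : ℝ) + 1) * (1 / ((i : ℝ) + 1) - 1 / ((i : ℝ) + 2)) =
      ((m : ℝ) + 1) / (((i : ℝ) + 1) * ((i : ℝ) + 2)) := by
    field_simp
    ring
  rw [e, div_le_div_iff₀ (by positivity) (by positivity)]
  nlinarith [mul_nonneg hm hi, mul_nonneg hi hi, mul_nonneg hm (mul_nonneg hi hi)]

noncomputable def g (m s i : ℕ) : ℝ :=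
  if i < s then 1 else ((m : ℝ) + 1) * (1 / ((i : ℝ) + 1) - 1 / ((i : ℝ) + 2))

theorem sum_g1 (m s : ℕ) : ∀ N, N ≤ s → ∑ i ∈ range N, g m s i = N := by
  intro N
  induction N with
  | zero => simp
  | succ N ih =>
    intro h
    rw [sum_range_succ, ih (by omega)]
    unfold g
    rw [if_pos (by omega)]
    push_cast
    rfl

theorem sum_g2 (m s d : ℕ) : ∑ i ∈ range (s + d), g m s i =
    s + ((m : ℝ) + 1) * (1 / ((s : ℝ) + 1) - 1 / ((s : ℝ) + d + 1)) := by
  induction d with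
  | zero =>
    rw [add_zero, sum_g1 m s s le_rfl]
    simp
  | succ d ih =>
    rw [← add_assoc, sum_range_succ, ih]
    unfold g
    rw [if_neg (by omega)]
    push_cast
    ring

theorem sum_g (m s : ℕ) (h : s ≤ m + 1) :
    ∑ i ∈ range (m + 1), g m s i ≤ s + ((m : ℝ) + 1) / ((s : ℝ) + 1) := by
  obtain ⟨d, hd⟩ := Nat.exists_eq_add_of_le h
  rw [hd, sum_g2, mul_sub, mul_one_div]
  have h1 : 0 ≤ ((m : ℝ) + 1) * (1 / ((s : ℝ) + d + 1)) := by positivity
  linarith

end SUM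

theorem p_SUM (hLOW : S_LOW) (hUPP : S_UPP) (hBAS : S_BAS) (hLOG : S_LOG) : S_SUM := by
  refine ⟨5, fun m => ?_⟩
  obtain ⟨s, hs⟩ : ∃ s, s = Nat.sqrt (m + 1) := ⟨_, rfl⟩
  obtain ⟨r, hr⟩ : ∃ r, r = Real.sqrt ((m : ℝ) + 1) := ⟨_, rfl⟩
  have hm0 : (0 : ℝ) ≤ m := Nat.cast_nonneg m
  have hr1 : (s : ℝ) ≤ r := by
    have := @Real.nat_sqrt_le_real_sqrt (m + 1)
    rw [hs, hr]
    push_cast at this ⊢
    exact this
  have hr2 : r ≤ (s : ℝ) + 1 := by
    have := @Real.real_sqrt_le_nat_sqrt_succ (m + 1)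
    rw [hs, hr]
    push_cast at this ⊢
    exact this
  have hr3 : r * r = (m : ℝ) + 1 := by
    rw [hr]
    exact Real.mul_self_sqrt (by linarith)
  have hr0 : 0 ≤ r := by rw [hr]; exact Real.sqrt_nonneg _
  have hr4 : 1 ≤ r := by nlinarith
  have hsm : s ≤ m + 1 := by rw [hs]; exact Nat.sqrt_le_self _
  have hD : (0 : ℝ) < df m := by
    have : 0 < df m := by
      unfold df
      exact prod_pos fun i _ => by omega
    exact_mod_cast this
  have hS : ∑ x ∈ range (2 * m + 1), (F m x 1 : ℝ) = ∑ x ∈ range (m + 1), (F m x 1 : ℝ) := by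
    symm
    apply sum_subset
    · intro x hx
      rw [mem_range] at hx ⊢
      omega
    · intro x hx hx'
      rw [mem_range] at hx hx'
      rw [hBAS.2 m x 1 (by omega) (by omega)]
      simp
  have hlow : ∀ j ∈ range (m + 1), (df m : ℝ) * (1 - SUM.q m j) ≤ F m j 1 := by
    intro j hj
    rw [mem_range] at hj
    have h := hLOW m j 1 (by omega)
    rwa [SUM.U_eq (by omega)] at h
  have hupp : ∀ j ∈ range (m + 1), (F m j 1 : ℝ) ≤
      (df m : ℝ) * (1 - SUM.q m j + 1 / ((m : ℝ) + 1) + SUM.g m s (m + 1 - 1 - j)) := by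
    intro j hj
    rw [mem_range] at hj
    have hjm : j ≤ m := by omega
    have h1m : 0 ≤ 1 / ((m : ℝ) + 1) := by positivity
    rw [show m + 1 - 1 - j = m - j by omega]
    unfold SUM.g
    split_ifs with h
    · have h1 : (F m j 1 : ℝ) ≤ df m := by exact_mod_cast hBAS.1 m j 1 (by omega)
      have h2 := SUM.q_le hjm
      have h3 : (df m : ℝ) * 1 ≤ (df m : ℝ) * (1 - SUM.q m j + 1 / ((m : ℝ) + 1) + 1) :=
        mul_le_mul_of_nonneg_left (by linarith) hD.le
      linarith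
    · have h1 := hUPP m j hjm
      have h2 := SUM.V_ge hjm
      have h3 := SUM.e_le m (m - j)
      refine h1.trans (mul_le_mul_of_nonneg_left ?_ hD.le)
      linarith
  have hTq := SUM.sum_q m
  have hlog : |2 * (m : ℝ) * ∑ i ∈ Ioc m (2 * m), 1 / (i : ℝ) - 2 * m * Real.log 2| ≤ 1 := by
    rcases Nat.eq_zero_or_pos m with h | h
    · subst h
      simp
    · exact hLOG m h
  rw [abs_le] at hlog
  have hL := sum_le_sum hlow
  have hR := sum_le_sum hupp
  rw [← mul_sum] at hL hR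
  have e1 : ∑ j ∈ range (m + 1), (1 - SUM.q m j) = (m : ℝ) + 1 - ∑ j ∈ range (m + 1), SUM.q m j := by
    rw [sum_sub_distrib, sum_const, card_range, nsmul_eq_mul, mul_one]
    push_cast
    rfl
  have e2 : ∑ j ∈ range (m + 1), (1 - SUM.q m j + 1 / ((m : ℝ) + 1) + SUM.g m s (m + 1 - 1 - j)) =
      ((m : ℝ) + 1 - ∑ j ∈ range (m + 1), SUM.q m j) + 1 + ∑ j ∈ range (m + 1), SUM.g m s j := by
    rw [sum_add_distrib, sum_add_distrib, e1, sum_range_reflect (SUM.g m s) (m + 1), sum_const, card_range,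
      nsmul_eq_mul]
    have : ((m + 1 : ℕ) : ℝ) * (1 / ((m : ℝ) + 1)) = 1 := by
      push_cast
      exact mul_one_div_cancel (by positivity)
    rw [this]
  rw [e1] at hL
  rw [e2] at hR
  have hg := SUM.sum_g m s hsm
  have hg2 : ((m : ℝ) + 1) / ((s : ℝ) + 1) ≤ r := by
    rw [div_le_iff₀ (by positivity), ← hr3]
    exact mul_le_mul_of_nonneg_left hr2 hr0
  rw [hS, ← hr]
  have hL' : (m : ℝ) + 1 - ∑ j ∈ range (m + 1), SUM.q m j ≤
      (∑ x ∈ range (m + 1), (F m x 1 : ℝ)) / df m := by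
    rw [le_div_iff₀ hD, mul_comm]
    exact hL
  have hR' : (∑ x ∈ range (m + 1), (F m x 1 : ℝ)) / df m ≤
      ((m : ℝ) + 1 - ∑ j ∈ range (m + 1), SUM.q m j) + 1 + ∑ j ∈ range (m + 1), SUM.g m s j := by
    rw [div_le_iff₀ hD, mul_comm]
    exact hR
  rw [hTq] at hL' hR'
  rw [abs_le]
  constructor
  · nlinarith
  · nlinarith

end Pool.Agent.LuckyMean
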