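import Pool.Agent.Work.MP_d4a4cd_mean.Interface

/-!
Block SUP (helper48): `U` is superharmonic where it is at most one.
-/

set_option autoImplicit false

namespace Pool.Agent.LuckyMean

open Finset

namespace SUP

theorem R_nonneg (a b k : ℕ) : 0 ≤ R a b k := by
  unfold R
  exact Finset.prod_nonneg fun i _ => by positivity

theorem R_succ (a b k : ℕ) : R a b (k + 1) = R a b k * (((a : ℝ) + 2 * k) / ((b : ℝ) + 2 * k)) := by
  unfold R
  rw [Finset.prod_range_succ]

theorem R_shift (a b k : ℕ) : R a b (k + 1) = ((a : ℝ) / b) * R (a + 2) (b + 2) k := by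
  unfold R
  rw [Finset.prod_range_succ', mul_comm]
  congr 1
  · simp
  · refine Finset.prod_congr rfl fun i _ => ?_
    push_cast
    ring_nf

theorem R_zero_left (b k : ℕ) : R 0 b (k + 1) = 0 := by
  rw [R_shift]
  simp

theorem R_mono (a b : ℕ) (hb : 1 ≤ b) (hab : a ≤ b) (n : ℕ) : R a b n ≤ R (a + 1) (b + 1) n := by
  unfold R
  refine Finset.prod_le_prod (fun i _ => by positivity) fun i _ => ?_
  have hb' : (1 : ℝ) ≤ b := by exact_mod_cast hb
  have hab' : (a : ℝ) ≤ b := by exact_mod_cast hab
  have hi : (0 : ℝ) ≤ i := Nat.cast_nonneg i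
  push_cast
  rw [div_le_div_iff₀ (by positivity) (by positivity)]
  nlinarith

theorem R_ge (a b : ℕ) (hb : 1 ≤ b) (hab : b < a) : ∀ n : ℕ, 1 ≤ R a b n ∧ 1 < R a b (n + 1) := by
  have hb' : (1 : ℝ) ≤ b := by exact_mod_cast hb
  have hab' : (b : ℝ) < a := by exact_mod_cast hab
  have key : ∀ n : ℕ, 1 ≤ R a b n → 1 < R a b (n + 1) := by
    intro n hn
    have hi : (0 : ℝ) ≤ n := Nat.cast_nonneg n
    rw [R_succ]
    have h1 : 1 < ((a : ℝ) + 2 * n) / ((b : ℝ) + 2 * n) := by
      rw [one_lt_div (by positivity)]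
      linarith
    nlinarith
  intro n
  induction n with
  | zero =>
    have h0 : (1 : ℝ) ≤ R a b 0 := by unfold R; simp
    exact ⟨h0, key 0 h0⟩
  | succ n ih => exact ⟨ih.2.le, key _ ih.2.le⟩

theorem D_term (A y k : ℕ) : ((A : ℝ) + 2 * k) * R A (y + 1) k =
    ((y : ℝ) + 1 + 2 * k) * R A (y + 1) (k + 1) := by
  rw [R_succ]
  push_cast
  have : (y : ℝ) + 1 + 2 * k ≠ 0 := by positivity
  field_simp

end SUP

/-- Block SUP. -/
theorem p_SUP : S_SUP := by
  intro x y k hxy hU
  by_cases hx : x ≤ 2 * k
  · -- everything vanishes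
    have h0 : U x y (k + 1) = 0 := by
      unfold U; rw [if_neg (by omega)]
    have h1 : ((x - 1 : ℕ) : ℝ) * U (x - 2) y k = 0 := by
      by_cases hx1 : x ≤ 1
      · have : x - 1 = 0 := by omega
        rw [this]; simp
      · unfold U; rw [if_neg (by omega), mul_zero]
    have h2 : (if 1 ≤ x ∧ 1 ≤ y then U (x - 1) (y - 1) (k + 1) else 0) = 0 := by
      split_ifs with h
      · unfold U; rw [if_neg (by omega)]
      · rfl
    have h3 : U x (y - 2) (k + 2) = 0 := by
      unfold U; rw [if_neg (by omega)]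
    rw [h0, h1, h2, h3]
    simp
  · obtain ⟨A, rfl⟩ : ∃ A, x = A + 2 * k + 1 := ⟨x - (2 * k + 1), by omega⟩
    have hUr : U (A + 2 * k + 1) y (k + 1) = R A (y + 1) (k + 1) := by
      unfold U
      rw [if_pos (by omega)]
      congr 1
      omega
    rw [hUr] at hU ⊢
    have hr := SUP.R_nonneg A (y + 1) (k + 1)
    have hD : ((A + 2 * k + 1 - 1 : ℕ) : ℝ) * U (A + 2 * k + 1 - 2) y k =
        ((y : ℝ) + 1 + 2 * k) * R A (y + 1) (k + 1) := by
      by_cases h0 : A + 2 * k = 0
      · have hA : A = 0 := by omega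
        have hk : k = 0 := by omega
        subst hA hk
        rw [SUP.R_zero_left]
        simp
      · have : U (A + 2 * k + 1 - 2) y k = R A (y + 1) k := by
          unfold U
          rw [if_pos (by omega)]
          congr 1
          omega
        rw [this, ← SUP.D_term]
        have h2 : (A + 2 * k + 1 - 1 : ℕ) = A + 2 * k := by omega
        rw [h2]
        push_cast
        ring
    rw [hD]
    have hN : ((y - 1 : ℕ) : ℝ) * U (A + 2 * k + 1) (y - 2) (k + 2) ≤
        ((A - 2 : ℕ) : ℝ) * R A (y + 1) (k + 1) := by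
      by_cases hy : y ≤ 1
      · have : y - 1 = 0 := by omega
        rw [this]
        have : (0 : ℝ) ≤ ((A - 2 : ℕ) : ℝ) * R A (y + 1) (k + 1) := by positivity
        simpa using this
      · by_cases hA : A ≤ 1
        · have h2 : U (A + 2 * k + 1) (y - 2) (k + 2) = 0 := by
            unfold U; rw [if_neg (by omega)]
          have : A - 2 = 0 := by omega
          rw [h2, this]
          simp
        · obtain ⟨a, rfl⟩ : ∃ a, A = a + 2 := ⟨A - 2, by omega⟩
          obtain ⟨z, rfl⟩ : ∃ z, y = z + 2 := ⟨y - 2, by omega⟩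
          have h2 : U (a + 2 + 2 * k + 1) (z + 2 - 2) (k + 2) = R a (z + 1) (k + 1 + 1) := by
            unfold U
            rw [if_pos (by omega)]
            congr 1
            omega
          rw [h2, SUP.R_shift]
          have e1 : (z + 2 - 1 : ℕ) = z + 1 := by omega
          have e2 : (a + 2 - 2 : ℕ) = a := by omega
          rw [e1, e2]
          have e3 : (z + 1 + 2 : ℕ) = z + 2 + 1 := by omega
          rw [e3]
          have hz : ((z + 1 : ℕ) : ℝ) ≠ 0 := by positivity
          rw [← mul_assoc, mul_div_cancel₀ _ hz]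
    have hAy : A ≤ y + 1 := by
      by_contra hcon
      have := (SUP.R_ge A (y + 1) (by omega) (by omega) k).2
      linarith
    have hS : (if 1 ≤ A + 2 * k + 1 ∧ 1 ≤ y then
        U (A + 2 * k + 1 - 1) (y - 1) (k + 1) else 0) ≤
        (if 2 ≤ A then R A (y + 1) (k + 1) else 0) := by
      split_ifs with h1 h2 h2
      · obtain ⟨a, rfl⟩ : ∃ a, A = a + 1 := ⟨A - 1, by omega⟩
        have h3 : U (a + 1 + 2 * k + 1 - 1) (y - 1) (k + 1) = R a y (k + 1) := by
          unfold U
          rw [if_pos (by omega)]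
          congr 1
          · omega
          · omega
        rw [h3]
        exact SUP.R_mono a y h1.2 (by omega) _
      · -- A ≤ 1
        apply le_of_eq
        by_cases hA : A = 0
        · unfold U; rw [if_neg (by omega)]
        · have hA1 : A = 1 := by omega
          subst hA1
          have h3 : U (1 + 2 * k + 1 - 1) (y - 1) (k + 1) = R 0 y (k + 1) := by
            unfold U
            rw [if_pos (by omega)]
            congr 1
            · omega
            · omega
          rw [h3, SUP.R_zero_left]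
      · exact hr
      · exact le_rfl
    generalize hSg : (if 1 ≤ A + 2 * k + 1 ∧ 1 ≤ y then
        U (A + 2 * k + 1 - 1) (y - 1) (k + 1) else 0) = S at hS ⊢
    generalize hNg : ((y - 1 : ℕ) : ℝ) * U (A + 2 * k + 1) (y - 2) (k + 2) = N at hN ⊢
    have hcast : ((A + 2 * k + 1 : ℕ) : ℝ) = (A : ℝ) + 2 * k + 1 := by push_cast; ring
    rw [hcast]
    rcases Nat.lt_or_ge A 2 with hA | hA
    · rw [if_neg (show ¬ 2 ≤ A by omega)] at hS
      have hA2 : A - 2 = 0 := by omega
      rw [hA2] at hN
      rcases Nat.lt_or_ge A 1 with hA0 | hA0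
      · have hA0' : A = 0 := by omega
        have h0 : R A (y + 1) (k + 1) = 0 := by rw [hA0']; exact SUP.R_zero_left _ _
        rw [h0] at hN ⊢
        simp only [Nat.cast_zero, mul_zero] at hN ⊢
        linarith
      · have hA1 : (A : ℝ) = 1 := by
          have : A = 1 := by omega
          rw [this]; norm_num
        rw [hA1]
        simp only [Nat.cast_zero, zero_mul] at hN
        nlinarith
    · rw [if_pos hA] at hS
      have hA2 : ((A - 2 : ℕ) : ℝ) = (A : ℝ) - 2 := by
        rw [Nat.cast_sub hA]; norm_num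
      rw [hA2] at hN
      nlinarith

end Pool.Agent.LuckyMean
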