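import Pool.Agent.Work.MP_d4a4cd_mean.Interface

/-!
Block WSU (helper48): the number of lucky gaps summed over the histories.
-/

set_option autoImplicit false

namespace Pool.Agent.LuckyMean

open Finset
open Pool.Agent.LuckyStirling (T step ftf a)

namespace WSU

theorem H_congr (f f' : List Bool → ℕ) : ∀ (M : ℕ) (u : List Bool),
    (∀ v : List Bool, v.length = u.length + 2 * M → f v = f' v) → H M f u = H M f' u := by
  intro M
  induction M with
  | zero =>
    intro u h
    exact h u (by omega)
  | succ M ih =>
    intro u h
    unfold H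
    refine Finset.sum_congr rfl fun g hg => ?_
    refine ih _ fun v hv => h v ?_
    rw [hv, Pool.Agent.LuckyStirling.length_step]
    omega

theorem H_sum (n : ℕ) (f : ℕ → List Bool → ℕ) : ∀ (M : ℕ) (u : List Bool),
    H M (fun v => ∑ g ∈ range n, f g v) u = ∑ g ∈ range n, H M (f g) u := by
  intro M
  induction M with
  | zero =>
    intro u
    rfl
  | succ M ih =>
    intro u
    change ∑ g ∈ range (u.length + 1), H M (fun v => ∑ g ∈ range n, f g v) (step u g) =
      ∑ g' ∈ range n, ∑ g ∈ range (u.length + 1), H M (f g') (step u g)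
    rw [Finset.sum_comm]
    exact Finset.sum_congr rfl fun g _ => ih _

end WSU

/-- Block WSU. -/
theorem p_WSU (hWRD : S_WRD) : S_WSU := by
  intro M
  have h1 : H M lg [] = H M (fun v => ∑ g ∈ range (2 * M + 1), ind g 1 v) [] := by
    refine WSU.H_congr _ _ M [] fun v hv => ?_
    unfold lg
    rw [hv]
    simp
  rw [h1, WSU.H_sum]
  refine Finset.sum_congr rfl fun x hx => ?_
  exact hWRD M x 1 (by have := Finset.mem_range.mp hx; omega)

end Pool.Agent.LuckyMean
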