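import Pool.Agent.Work.MP_d4a4cd_mean.Interface2
import Pool.Agent.Work.MP_d4a4cd_mean.B_WSU
import Pool.Agent.Work.MP_d4a4cd_mean.B_SUM

/-!
# Block UCB: uniform bound for the conditional mean
-/

set_option autoImplicit false

namespace Pool.Agent.LuckyMean

open Finset
open Pool.Agent.LuckyStirling (T step ftf a)

namespace UCB

theorem H_mono (f f' : List Bool → ℕ) (h : ∀ v, f v ≤ f' v) :
    ∀ (M : ℕ) (u : List Bool), H M f u ≤ H M f' u := by
  intro M
  induction M with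
  | zero =>
    intro u
    exact h u
  | succ M ih =>
    intro u
    unfold H
    exact Finset.sum_le_sum fun g _ => ih _

theorem ind_anti {x x' : ℕ} (hx : x ≤ x') (u : List Bool) : ind x' 1 u ≤ ind x 1 u := by
  unfold ind
  have h1 : (u.take x).count true ≤ (u.take x').count true := by
    apply List.Sublist.count_le
    have e : u.take x = (u.take x').take x := by rw [List.take_take, min_eq_left hx]
    rw [e]
    exact List.take_sublist _ _
  split_ifs <;> omega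

theorem H_lg (K m : ℕ) (v : List Bool) (hv : v.length = 2 * m) :
    H K lg v = ∑ x ∈ range (2 * (m + K) + 1), H K (ind x 1) v := by
  have h1 : H K lg v = H K (fun u => ∑ g ∈ range (2 * (m + K) + 1), ind g 1 u) v := by
    refine WSU.H_congr _ _ K v fun u hu => ?_
    unfold lg
    rw [hu, hv, mul_add]
  rw [h1, WSU.H_sum]

theorem V_eq {m j : ℕ} (h : 2 ≤ j) (hj : j ≤ m) :
    V j (2 * m - j) 1 = ((j : ℝ) - 2) / (2 * (m : ℝ) - j + 1) := by
  unfold V R
  rw [if_pos (by omega), prod_range_one]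
  have e1 : ((j - 2 * 1 : ℕ) : ℝ) = (j : ℝ) - 2 := by
    rw [show j - 2 * 1 = j - 2 by omega, Nat.cast_sub (by omega)]
    simp
  have e2 : ((2 * m - j + 1 : ℕ) : ℝ) = 2 * (m : ℝ) - j + 1 := by
    rw [Nat.cast_add, Nat.cast_sub (by omega)]
    push_cast
    ring
  rw [e1, e2]
  simp

theorem V_le {m j : ℕ} (hj : j ≤ m) : V j (2 * m - j) 1 ≤ 1 := by
  rcases Nat.lt_or_ge j 2 with h | h
  · unfold V
    rw [if_neg (by omega)]
    exact zero_le_one
  · rw [V_eq h hj]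
    have hj' : (j : ℝ) ≤ m := by exact_mod_cast hj
    have h0m : (0 : ℝ) ≤ m := Nat.cast_nonneg m
    rw [div_le_one (by linarith)]
    linarith

end UCB

theorem p_UCB (hKWR : S_KWR) (hKST : S_KST) (hLOG : S_LOG) : S_UCB := by
  intro ε hε
  obtain ⟨η, hη⟩ : ∃ η : ℝ, η = min (ε / 12) (1 / 4) := ⟨_, rfl⟩
  have hη0 : 0 < η := by rw [hη]; exact lt_min (by positivity) (by norm_num)
  have hη1 : η ≤ ε / 12 := by rw [hη]; exact min_le_left _ _
  have hη2 : η ≤ 1 / 4 := by rw [hη]; exact min_le_right _ _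
  obtain ⟨r, hr0, hr1, hr⟩ := hKST η hη0 (by linarith)
  obtain ⟨K, hK⟩ := exists_pow_lt_of_lt_one (show 0 < ε / 3 by positivity) hr1
  obtain ⟨M0, hM0⟩ := hr K
  obtain ⟨N1, hN1⟩ := exists_nat_ge (39 / ε)
  refine ⟨K, max M0 (max N1 2), fun m v hm hv => ?_⟩
  have hmM0 : M0 ≤ m := le_trans (le_max_left _ _) hm
  have hmN : N1 ≤ m := le_trans (le_trans (le_max_left _ _) (le_max_right _ _)) hm
  have hm2 : 2 ≤ m := le_trans (le_trans (le_max_right _ _) (le_max_right _ _)) hm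
  obtain ⟨M, hM⟩ : ∃ M, M = m + K := ⟨_, rfl⟩
  obtain ⟨P, hPdef⟩ : ∃ P : ℝ, P = (Pn m K : ℝ) := ⟨_, rfl⟩
  have hP : 0 < P := by
    have : 0 < Pn m K := by
      unfold Pn
      exact prod_pos fun i _ => by omega
    rw [hPdef]
    exact_mod_cast this
  have hMm : (m : ℝ) ≤ M := by
    rw [hM]
    push_cast
    linarith [(Nat.cast_nonneg K : (0 : ℝ) ≤ K)]
  have hm2' : (2 : ℝ) ≤ m := by exact_mod_cast hm2
  have hM2 : (2 : ℝ) ≤ M := by linarith
  have hM1 : 1 ≤ M := by omega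
  have hrK : 0 ≤ r ^ K := pow_nonneg hr0 K
  obtain ⟨xs, hxs⟩ : ∃ xs, xs = ⌊(1 - 2 * η) * (M : ℝ)⌋₊ := ⟨_, rfl⟩
  have hpos : 0 ≤ (1 - 2 * η) * (M : ℝ) := mul_nonneg (by linarith) (by linarith)
  have hxs1 : (xs : ℝ) ≤ (1 - 2 * η) * M := by
    rw [hxs]
    exact Nat.floor_le hpos
  have hxs2 : (1 - 2 * η) * (M : ℝ) < xs + 1 := by
    rw [hxs]
    exact Nat.lt_floor_add_one _
  have hxsM : xs ≤ M := by
    have h1 : (xs : ℝ) ≤ M := by nlinarith
    exact_mod_cast h1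
  have hxsM' : (xs : ℝ) ≤ M := by exact_mod_cast hxsM
  have hxs0 : 1 ≤ xs := by
    have h1 : (1 : ℝ) < xs + 1 := by nlinarith
    have h2 : (0 : ℝ) < xs := by linarith
    have h3 : 0 < xs := by exact_mod_cast h2
    omega
  have hb1 : ∀ x ≤ xs, (H K (ind x 1) v : ℝ) ≤ P * (1 - V x (2 * M - x) 1 + r ^ K) := by
    intro x hx
    have h1 := hKWR K m x 1 v hv (by omega)
    have hx' : (x : ℝ) ≤ xs := by exact_mod_cast hx
    have h2 := hM0 m hmM0 x (by rw [← hM]; linarith)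
    rw [← hM] at h1 h2
    rw [← hPdef] at h2
    have h3 : (H K (ind x 1) v : ℝ) ≤ FK K M x 1 := by exact_mod_cast h1
    exact h3.trans h2
  have h5 : 0 ≤ 5 / ((M : ℝ) + 1) := by positivity
  have hVs : 1 - V xs (2 * M - xs) 1 ≤ 4 * η + 5 / ((M : ℝ) + 1) := by
    have h1 := SUM.V_ge hxsM
    have h2 : SUM.q M xs = ((xs : ℝ) - 1) / (2 * M - xs + 1) := by
      unfold SUM.q
      rw [if_neg (by omega)]
    have h3 : 1 - SUM.q M xs ≤ 4 * η + 4 / ((M : ℝ) + 1) := by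
      have hd : (0 : ℝ) < 2 * M - xs + 1 := by linarith
      have e : 1 - SUM.q M xs = (2 * (M : ℝ) - 2 * xs + 2) / (2 * M - xs + 1) := by
        rw [h2, eq_div_iff hd.ne', sub_mul, div_mul_cancel₀ _ hd.ne']
        ring
      have e2 : 4 * η + 4 / ((M : ℝ) + 1) = (4 * η * (M + 1) + 4) / ((M : ℝ) + 1) := by
        rw [add_div, mul_div_cancel_right₀ _ (by linarith : (M : ℝ) + 1 ≠ 0)]
      rw [e, e2]
      have hnum : 2 * (M : ℝ) - 2 * xs + 2 ≤ 4 * η * (M + 1) + 4 := by nlinarith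
      have hnum0 : 0 ≤ 4 * η * ((M : ℝ) + 1) + 4 := by positivity
      exact div_le_div₀ hnum0 hnum (by linarith) (by linarith)
    have e3 : 5 / ((M : ℝ) + 1) = 4 / ((M : ℝ) + 1) + 1 / ((M : ℝ) + 1) := by
      rw [← add_div]
      norm_num
    rw [e3]
    linarith
  have hall : ∀ x ∈ range (2 * M + 1), (H K (ind x 1) v : ℝ) ≤
      P * ((if x ≤ M then 1 - V x (2 * M - x) 1 else 0) + (r ^ K + 4 * η + 5 / ((M : ℝ) + 1))) := by
    intro x _
    rcases le_total x xs with h | h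
    · refine (hb1 x h).trans (mul_le_mul_of_nonneg_left ?_ hP.le)
      rw [if_pos (h.trans hxsM)]
      linarith
    · have h1 : (H K (ind x 1) v : ℝ) ≤ H K (ind xs 1) v := by
        exact_mod_cast UCB.H_mono _ _ (UCB.ind_anti h) K v
      refine h1.trans ((hb1 xs le_rfl).trans (mul_le_mul_of_nonneg_left ?_ hP.le))
      have h2 : 0 ≤ (if x ≤ M then 1 - V x (2 * M - x) 1 else 0 : ℝ) := by
        split_ifs with h3
        · linarith [UCB.V_le h3]
        · exact le_rfl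
      linarith
  have hsum1 : ∑ x ∈ range (2 * M + 1), (if x ≤ M then 1 - V x (2 * M - x) 1 else 0 : ℝ) =
      ∑ x ∈ range (M + 1), (1 - V x (2 * M - x) 1) := by
    symm
    have e : ∑ x ∈ range (M + 1), (1 - V x (2 * M - x) 1) =
        ∑ x ∈ range (M + 1), (if x ≤ M then 1 - V x (2 * M - x) 1 else 0 : ℝ) := by
      apply sum_congr rfl
      intro x hx
      rw [mem_range] at hx
      rw [if_pos (by omega)]
    rw [e]
    apply sum_subset
    · intro x hx
      rw [mem_range] at hx ⊢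
      omega
    · intro x _ hx'
      rw [mem_range] at hx'
      rw [if_neg (by omega)]
  have hsum2 : ∑ x ∈ range (M + 1), (1 - V x (2 * M - x) 1) ≤
      2 * (M : ℝ) + 2 - 2 * (M : ℝ) * ∑ i ∈ Ioc M (2 * M), 1 / (i : ℝ) := by
    have h1 : ∑ x ∈ range (M + 1), (1 - V x (2 * M - x) 1) ≤
        ∑ x ∈ range (M + 1), (1 - SUM.q M x + 1 / ((M : ℝ) + 1)) := by
      apply sum_le_sum
      intro x hx
      rw [mem_range] at hx
      have := SUM.V_ge (show x ≤ M by omega)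
      linarith
    refine h1.trans (le_of_eq ?_)
    rw [sum_add_distrib, sum_sub_distrib, SUM.sum_q, sum_const, sum_const, card_range, nsmul_eq_mul,
      nsmul_eq_mul, mul_one]
    have e : ((M + 1 : ℕ) : ℝ) * (1 / ((M : ℝ) + 1)) = 1 := by
      push_cast
      exact mul_one_div_cancel (by positivity)
    rw [e]
    push_cast
    ring
  have hlog := (abs_le.1 (hLOG M hM1)).1
  have hlog2 : Real.log 2 ≤ 1 := by
    have := Real.log_le_sub_one_of_pos (show (0 : ℝ) < 2 by norm_num)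
    linarith
  have hMN : 39 ≤ ε * M := by
    have h1 : (N1 : ℝ) ≤ m := by exact_mod_cast hmN
    have h2 : 39 / ε ≤ M := by linarith
    rw [div_le_iff₀ hε] at h2
    linarith
  have hten : (2 * (M : ℝ) + 1) * (5 / ((M : ℝ) + 1)) ≤ 10 := by
    rw [mul_div_assoc', div_le_iff₀ (by positivity)]
    linarith
  rw [UCB.H_lg K m v hv, ← hM, Nat.cast_sum]
  refine (sum_le_sum hall).trans ?_
  rw [← mul_sum, sum_add_distrib, hsum1, sum_const, card_range, nsmul_eq_mul, ← hPdef, mul_comm _ P]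
  apply mul_le_mul_of_nonneg_left _ hP.le
  have e : ((2 * M + 1 : ℕ) : ℝ) * (r ^ K + 4 * η + 5 / ((M : ℝ) + 1)) =
      (2 * (M : ℝ) + 1) * (r ^ K + 4 * η) + (2 * (M : ℝ) + 1) * (5 / ((M : ℝ) + 1)) := by
    push_cast
    ring
  rw [e]
  have h7 : (2 * (M : ℝ) + 1) * (r ^ K + 4 * η) ≤ (2 * (M : ℝ) + 1) * (2 * ε / 3) :=
    mul_le_mul_of_nonneg_left (by linarith) (by linarith)
  have e8 : (1 - Real.log 2 + ε) * (2 * (M : ℝ) + 1) = 2 * (M : ℝ) - 2 * M * Real.log 2 + (1 - Real.log 2) +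
      2 * (ε * M) + ε := by ring
  have e9 : (2 * (M : ℝ) + 1) * (2 * ε / 3) = 4 / 3 * (ε * M) + 2 * ε / 3 := by ring
  rw [e8]
  rw [e9] at h7
  linarith

end Pool.Agent.LuckyMean
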