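import Pool.Agent.Work.MP_d4a4cd_mean.Interface

/-!
# The mean number of lucky cars of a Stirling permutation: block UPP
-/

set_option autoImplicit false

namespace Pool.Agent.LuckyMean

namespace UPP

theorem V_zero (x y : ℕ) : V x y 0 = 1 := by
  unfold V R
  simp

theorem df_succ (M : ℕ) : (df (M + 1) : ℝ) = df M * (2 * (M : ℝ) + 1) := by
  unfold df
  rw [Finset.prod_range_succ]
  push_cast
  ring

theorem main (hSUB : S_SUB) (hEXB : S_EXB) (hBAS : S_BAS) (c : ℕ) (L : ℝ) (hL : 0 ≤ L) :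
    ∀ M x k : ℕ, x ≤ 2 * M → (2 * M - x) + 2 * k = x + c + 2 → (x : ℝ) + c + 1 ≤ L →
      (F M x k : ℝ) ≤ df M * (1 - V x (2 * M - x) k + 2 * L / ((c : ℝ) + 3) ^ 2) := by
  obtain ⟨E, hE⟩ : ∃ E : ℝ, E = 2 * L / ((c : ℝ) + 3) ^ 2 := ⟨_, rfl⟩
  have hE0 : 0 ≤ E := by rw [hE]; positivity
  rw [← hE]
  intro M
  induction M with
  | zero =>
    intro x k hx _ _
    have hx0 : x = 0 := by omega
    subst hx0
    cases k with
    | zero =>
      rw [V_zero]
      simp only [F, Nat.cast_zero]
      have : (0 : ℝ) ≤ df 0 := Nat.cast_nonneg _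
      nlinarith
    | succ k =>
      have h1 : V 0 (2 * 0 - 0) (k + 1) = 0 := by
        unfold V
        rw [if_neg (by omega)]
      rw [h1]
      simp only [F, df]
      simp
      exact hE0
  | succ M ih =>
    intro x k hx hrel hb
    cases k with
    | zero =>
      rw [V_zero]
      simp only [F, Nat.cast_zero]
      have : (0 : ℝ) ≤ df (M + 1) := Nat.cast_nonneg _
      nlinarith
    | succ k =>
      obtain ⟨y, hy⟩ : ∃ y : ℕ, y = 2 * (M + 1) - x := ⟨_, rfl⟩
      rw [← hy] at hrel ⊢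
      obtain ⟨D, hD⟩ : ∃ D : ℝ, D = (df M : ℝ) := ⟨_, rfl⟩
      have hD0 : 0 ≤ D := by rw [hD]; exact Nat.cast_nonneg _
      by_cases hyx : y + 1 < x
      · have h1 : (F (M + 1) x (k + 1) : ℝ) ≤ df (M + 1) := by
          exact_mod_cast hBAS.1 (M + 1) x (k + 1) hx
        have h2 := hEXB x y (k + 1) c hrel hyx
        have h3 : 2 * ((x : ℝ) + c + 1) / ((c : ℝ) + 3) ^ 2 ≤ E := by
          rw [hE]
          apply div_le_div_of_nonneg_right _ (by positivity)
          linarith
        have h4 : (0 : ℝ) ≤ df (M + 1) := Nat.cast_nonneg _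
        nlinarith
      · have hsub := hSUB x y k (by omega) (by omega)
        have hsum : (x : ℝ) + y - 1 = 2 * (M : ℝ) + 1 := by
          have : x + y = 2 * (M + 1) := by omega
          have h : (x : ℝ) + y = 2 * ((M : ℝ) + 1) := by exact_mod_cast this
          linarith
        rw [hsum] at hsub
        have h1 : (((x - 1 : ℕ) : ℝ)) * (F M (x - 2) k : ℝ) ≤
            ((x - 1 : ℕ) : ℝ) * (D * (1 - V (x - 2) y k + E)) := by
          by_cases hx1 : x ≤ 1
          · have h0 : x - 1 = 0 := by omega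
            rw [h0]
            simp
          · apply mul_le_mul_of_nonneg_left _ (Nat.cast_nonneg _)
            have h := ih (x - 2) k (by omega) (by omega) (by
              have : ((x - 2 : ℕ) : ℝ) ≤ x := by exact_mod_cast Nat.sub_le _ _
              linarith)
            have e : 2 * M - (x - 2) = y := by omega
            rw [e, ← hD] at h
            exact h
        have h2 : (((2 * M + 1 - x : ℕ) : ℝ)) * (F M x (k + 2) : ℝ) ≤
            ((y - 1 : ℕ) : ℝ) * (D * (1 - V x (y - 2) (k + 2) + E)) := by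
          have e0 : 2 * M + 1 - x = y - 1 := by omega
          rw [e0]
          by_cases hy1 : y ≤ 1
          · have h0 : y - 1 = 0 := by omega
            rw [h0]
            simp
          · apply mul_le_mul_of_nonneg_left _ (Nat.cast_nonneg _)
            have h := ih x (k + 2) (by omega) (by omega) hb
            have e : 2 * M - x = y - 2 := by omega
            rw [e, ← hD] at h
            exact h
        have h3 : (((if 1 ≤ x ∧ x ≤ 2 * M + 1 then F M (x - 1) (k + 1) else 0 : ℕ)) : ℝ) ≤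
            D * ((if 1 ≤ x ∧ 1 ≤ y then (1 : ℝ) else 0) * (1 + E) -
              (if 1 ≤ x ∧ 1 ≤ y then V (x - 1) (y - 1) (k + 1) else 0)) := by
          by_cases hc : 1 ≤ x ∧ 1 ≤ y
          · rw [if_pos hc, if_pos hc, if_pos ⟨hc.1, by omega⟩]
            have h := ih (x - 1) (k + 1) (by omega) (by omega) (by
              have : ((x - 1 : ℕ) : ℝ) ≤ x := by exact_mod_cast Nat.sub_le _ _
              linarith)
            have e : 2 * M - (x - 1) = y - 1 := by omega
            rw [e, ← hD] at h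
            linarith
          · rw [if_neg hc, if_neg hc, if_neg (by omega)]
            simp
        have hcoef : ((x - 1 : ℕ) : ℝ) + (if 1 ≤ x ∧ 1 ≤ y then (1 : ℝ) else 0) +
            ((y - 1 : ℕ) : ℝ) = 2 * (M : ℝ) + 1 := by
          by_cases hc : 1 ≤ x ∧ 1 ≤ y
          · rw [if_pos hc]
            have : x - 1 + 1 + (y - 1) = 2 * M + 1 := by omega
            exact_mod_cast this
          · rw [if_neg hc]
            have : x - 1 + (y - 1) = 2 * M + 1 := by omega
            have h : ((x - 1 : ℕ) : ℝ) + ((y - 1 : ℕ) : ℝ) = 2 * (M : ℝ) + 1 := by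
              exact_mod_cast this
            linarith
        have hF : (F (M + 1) x (k + 1) : ℝ) = ((x - 1 : ℕ) : ℝ) * (F M (x - 2) k : ℝ) +
            (((if 1 ≤ x ∧ x ≤ 2 * M + 1 then F M (x - 1) (k + 1) else 0 : ℕ)) : ℝ) +
            (((2 * M + 1 - x : ℕ) : ℝ)) * (F M x (k + 2) : ℝ) := by
          have h : F (M + 1) x (k + 1) = (x - 1) * F M (x - 2) k +
              (if 1 ≤ x ∧ x ≤ 2 * M + 1 then F M (x - 1) (k + 1) else 0) +
              (2 * M + 1 - x) * F M x (k + 2) := by
            rw [F]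
          rw [h]
          push_cast
          ring
        rw [hF, df_succ, ← hD]
        have hmul := mul_le_mul_of_nonneg_left hsub hD0
        obtain ⟨p, hp⟩ : ∃ p : ℝ, p = ((x - 1 : ℕ) : ℝ) := ⟨_, rfl⟩
        obtain ⟨r, hr⟩ : ∃ r : ℝ, r = ((y - 1 : ℕ) : ℝ) := ⟨_, rfl⟩
        obtain ⟨s, hs⟩ : ∃ s : ℝ, s = (if 1 ≤ x ∧ 1 ≤ y then (1 : ℝ) else 0) := ⟨_, rfl⟩
        obtain ⟨S, hS⟩ : ∃ S : ℝ, S = (if 1 ≤ x ∧ 1 ≤ y then V (x - 1) (y - 1) (k + 1) else 0) :=
          ⟨_, rfl⟩
        rw [← hp] at h1 hcoef hmul ⊢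
        rw [← hr] at h2 hcoef hmul
        rw [← hs] at h3 hcoef
        rw [← hS] at h3 hmul
        have hkey : p * (D * (1 - V (x - 2) y k + E)) + D * (s * (1 + E) - S) +
            r * (D * (1 - V x (y - 2) (k + 2) + E)) =
            D * ((p + s + r) * (1 + E)) -
              D * (p * V (x - 2) y k + S + r * V x (y - 2) (k + 2)) := by ring
        have hgoal : D * (2 * (M : ℝ) + 1) * (1 - V x y (k + 1) + E) =
            D * ((2 * (M : ℝ) + 1) * (1 + E)) - D * ((2 * (M : ℝ) + 1) * V x y (k + 1)) := by ring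
        rw [hgoal]
        rw [hcoef] at hkey
        linarith

end UPP

open UPP in
theorem p_UPP (hSUB : S_SUB) (hEXB : S_EXB) (hBAS : S_BAS) : S_UPP := by
  intro m j hj
  have h := main hSUB hEXB hBAS (2 * (m - j)) (2 * (m : ℝ) + 1) (by positivity) m j 1 (by omega)
    (by omega) (by
      have h1 : j + 2 * (m - j) + 1 ≤ 2 * m + 1 := by omega
      have h2 : ((j + 2 * (m - j) + 1 : ℕ) : ℝ) ≤ ((2 * m + 1 : ℕ) : ℝ) := by exact_mod_cast h1
      push_cast at h2 ⊢
      linarith)
  have e : (((2 * (m - j) : ℕ)) : ℝ) = 2 * ((m - j : ℕ) : ℝ) := by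
    rw [Nat.cast_mul, Nat.cast_ofNat]
  rw [e] at h
  exact h

end Pool.Agent.LuckyMean
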