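import Pool.Agent.Work.MP_d4a4cd_mean.Interface

/-!
# Block BAS: trivial bounds
-/

set_option autoImplicit false

namespace Pool.Agent.LuckyMean

open Finset

namespace BAS

theorem df_succ (M : ℕ) : df (M + 1) = df M * (2 * M + 1) := by
  unfold df
  rw [prod_range_succ]

theorem F_zero (M x : ℕ) : F M x 0 = 0 := by
  cases M <;> rfl

theorem F_succ (M x k : ℕ) : F (M + 1) x (k + 1) = (x - 1) * F M (x - 2) k +
      (if 1 ≤ x ∧ x ≤ 2 * M + 1 then F M (x - 1) (k + 1) else 0) +
      (2 * M + 1 - x) * F M x (k + 2) := rfl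

theorem le_df : ∀ M x k : ℕ, x ≤ 2 * M → F M x k ≤ df M := by
  intro M
  induction M with
  | zero =>
    intro x k hx
    cases k with
    | zero => rw [F_zero]; exact Nat.zero_le _
    | succ k =>
      show 1 ≤ df 0
      simp [df]
  | succ M ih =>
    intro x k hx
    cases k with
    | zero => rw [F_zero]; exact Nat.zero_le _
    | succ k =>
      rw [F_succ, df_succ]
      have h1 : (x - 1) * F M (x - 2) k ≤ (x - 1) * df M :=
        Nat.mul_le_mul_left _ (ih _ _ (by omega))
      have h2 : (if 1 ≤ x ∧ x ≤ 2 * M + 1 then F M (x - 1) (k + 1) else 0) ≤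
          (if 1 ≤ x ∧ x ≤ 2 * M + 1 then 1 else 0) * df M := by
        split_ifs with h
        · rw [one_mul]; exact ih _ _ (by omega)
        · exact Nat.zero_le _
      have h3 : (2 * M + 1 - x) * F M x (k + 2) ≤ (2 * M + 1 - x) * df M := by
        by_cases h : x ≤ 2 * M
        · exact Nat.mul_le_mul_left _ (ih _ _ h)
        · have : 2 * M + 1 - x = 0 := by omega
          rw [this, zero_mul, zero_mul]
      have h4 : (x - 1) + (if 1 ≤ x ∧ x ≤ 2 * M + 1 then 1 else 0) + (2 * M + 1 - x) ≤
          2 * M + 1 := by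
        split_ifs with h <;> omega
      calc _ ≤ (x - 1) * df M + (if 1 ≤ x ∧ x ≤ 2 * M + 1 then 1 else 0) * df M +
            (2 * M + 1 - x) * df M := Nat.add_le_add (Nat.add_le_add h1 h2) h3
        _ = ((x - 1) + (if 1 ≤ x ∧ x ≤ 2 * M + 1 then 1 else 0) + (2 * M + 1 - x)) * df M := by
            ring
        _ ≤ (2 * M + 1) * df M := Nat.mul_le_mul_right _ h4
        _ = df M * (2 * M + 1) := by ring

theorem eq_zero : ∀ M x k : ℕ, M + k ≤ x → x ≤ 2 * M → F M x k = 0 := by
  intro M
  induction M with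
  | zero =>
    intro x k hk hx
    have : k = 0 := by omega
    subst this
    exact F_zero _ _
  | succ M ih =>
    intro x k hk hx
    cases k with
    | zero => exact F_zero _ _
    | succ k =>
      rw [F_succ]
      have h1 : F M (x - 2) k = 0 := ih _ _ (by omega) (by omega)
      have h2 : (if 1 ≤ x ∧ x ≤ 2 * M + 1 then F M (x - 1) (k + 1) else 0) = 0 := by
        split_ifs with h
        · exact ih _ _ (by omega) (by omega)
        · rfl
      have h3 : (2 * M + 1 - x) * F M x (k + 2) = 0 := by
        by_cases h : x ≤ 2 * M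
        · rw [ih x (k + 2) (by omega) h, mul_zero]
        · have : 2 * M + 1 - x = 0 := by omega
          rw [this, zero_mul]
      rw [h1, h2, h3, mul_zero]

end BAS

theorem p_BAS : S_BAS := ⟨BAS.le_df, BAS.eq_zero⟩

end Pool.Agent.LuckyMean
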