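import Pool.Agent.Work.MP_d4a4cd_co_h99.Chain

/-!
# The mean number of lucky cars of a Stirling permutation: interface
-/

set_option autoImplicit false

namespace Pool.Agent.LuckyMean

open Finset
open Pool.Agent.LuckyStirling (T step ftf a)

/-- `1 * 3 * 5 * ... * (2 n - 1)` -/
def df (n : ℕ) : ℕ := ∏ i ∈ range n, (2 * i + 1)

/-- sum of `f` over the words after `M` insertions, starting with `u` -/
def H : ℕ → (List Bool → ℕ) → List Bool → ℕ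
  | 0, f, u => f u
  | M + 1, f, u => ∑ g ∈ range (u.length + 1), H M f (step u g)

/-- fewer than `k` ones among the first `x` letters -/
def ind (x k : ℕ) (u : List Bool) : ℕ := if (u.take x).count true < k then 1 else 0

/-- the number of lucky gaps -/
def lg (u : List Bool) : ℕ := ∑ g ∈ range (u.length + 1), ind g 1 u

/-- the number of histories with fewer than `k` ones among the first `x` letters -/
def F : ℕ → ℕ → ℕ → ℕ
  | _, _, 0 => 0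
  | 0, _, _ + 1 => 1
  | M + 1, x, k + 1 => (x - 1) * F M (x - 2) k +
      (if 1 ≤ x ∧ x ≤ 2 * M + 1 then F M (x - 1) (k + 1) else 0) +
      (2 * M + 1 - x) * F M x (k + 2)

/-- `a (a + 2) ... / (b (b + 2) ...)` -/
noncomputable def R (a b k : ℕ) : ℝ := ∏ i ∈ range k, ((a : ℝ) + 2 * i) / ((b : ℝ) + 2 * i)

/-- the superharmonic function -/
noncomputable def U (x y k : ℕ) : ℝ := if 2 * k ≤ x + 1 then R (x + 1 - 2 * k) (y + 1) k else 0

/-- the subharmonic function -/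
noncomputable def V (x y k : ℕ) : ℝ := if 2 * k ≤ x then R (x - 2 * k) (y + 1) k else 0

/-! ### Blocks -/

/-- TOT: all Stirling permutations -/
def S_TOT : Prop := ∀ n : ℕ, ∑ k ∈ range (n + 1), a n k = df n

/-- FST: first moment -/
def S_FST : Prop := ∀ n : ℕ, ∑ k ∈ range (n + 1), k * a n k =
  ∑ m ∈ range n, H m lg [] * ∏ i ∈ Ico (m + 1) n, (2 * i + 1)

/-- REC: the last insertion -/
def S_REC : Prop := ∀ (M x k : ℕ) (v : List Bool), v.length = 2 * M → x ≤ 2 * M + 2 →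
  ∑ g ∈ range (2 * M + 1), ind x (k + 1) (step v g) = (x - 1) * ind (x - 2) k v +
    (if 1 ≤ x ∧ x ≤ 2 * M + 1 then ind (x - 1) (k + 1) v else 0) +
    (2 * M + 1 - x) * ind x (k + 2) v

/-- WRD: words -/
def S_WRD : Prop := ∀ M x k : ℕ, x ≤ 2 * M → H M (ind x k) [] = F M x k

/-- WSU: the number of lucky gaps -/
def S_WSU : Prop := ∀ M : ℕ, H M lg [] = ∑ x ∈ range (2 * M + 1), F M x 1

/-- SUP: `U` is superharmonic where it is at most one -/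
def S_SUP : Prop := ∀ x y k : ℕ, 2 ≤ x + y → U x y (k + 1) ≤ 1 →
  ((x - 1 : ℕ) : ℝ) * U (x - 2) y k + (if 1 ≤ x ∧ 1 ≤ y then U (x - 1) (y - 1) (k + 1) else 0) +
    ((y - 1 : ℕ) : ℝ) * U x (y - 2) (k + 2) ≤ ((x : ℝ) + y - 1) * U x y (k + 1)

/-- LOW: lower bound -/
def S_LOW : Prop := ∀ M x k : ℕ, x ≤ 2 * M → (df M : ℝ) * (1 - U x (2 * M - x) k) ≤ F M x k

/-- SUB: `V` is subharmonic for `x ≤ y + 1` -/
def S_SUB : Prop := ∀ x y k : ℕ, 2 ≤ x + y → x ≤ y + 1 →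
  ((x : ℝ) + y - 1) * V x y (k + 1) ≤ ((x - 1 : ℕ) : ℝ) * V (x - 2) y k +
    (if 1 ≤ x ∧ 1 ≤ y then V (x - 1) (y - 1) (k + 1) else 0) +
    ((y - 1 : ℕ) : ℝ) * V x (y - 2) (k + 2)

/-- EXB: `V` is small behind the barrier -/
def S_EXB : Prop := ∀ x y k c : ℕ, y + 2 * k = x + c + 2 → y + 1 < x →
  V x y k ≤ 2 * ((x : ℝ) + c + 1) / ((c : ℝ) + 3) ^ 2

/-- UPP: upper bound -/
def S_UPP : Prop := ∀ m j : ℕ, j ≤ m → (F m j 1 : ℝ) ≤
  df m * (1 - V j (2 * m - j) 1 + 2 * (2 * (m : ℝ) + 1) / (2 * (m - j : ℕ) + 3) ^ 2)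

/-- BAS: trivial bounds -/
def S_BAS : Prop := (∀ M x k : ℕ, x ≤ 2 * M → F M x k ≤ df M) ∧
  ∀ M x k : ℕ, M + k ≤ x → x ≤ 2 * M → F M x k = 0

/-- LOG: harmonic numbers -/
def S_LOG : Prop := ∀ m : ℕ, 1 ≤ m →
  |2 * (m : ℝ) * ∑ i ∈ Ioc m (2 * m), 1 / (i : ℝ) - 2 * m * Real.log 2| ≤ 1

/-- SUM: the mean number of lucky gaps -/
def S_SUM : Prop := ∃ C : ℝ, ∀ m : ℕ,
  |(∑ x ∈ range (2 * m + 1), (F m x 1 : ℝ)) / df m - 2 * m * (1 - Real.log 2)| ≤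
    C * Real.sqrt (m + 1)

/-- The theorem -/
def S_MAIN : Prop := ∃ C : ℝ, ∀ n : ℕ,
  |(∑ k ∈ range (n + 1), (k : ℝ) * a n k) / (∑ k ∈ range (n + 1), (a n k : ℝ)) -
    (1 - Real.log 2) * n| ≤ C * Real.sqrt n

end Pool.Agent.LuckyMean
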