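import Pool.Agent.Work.MP_d4a4cd_mean.Interface

/-!
# The law of large numbers for the number of lucky cars: interface
-/

set_option autoImplicit false

namespace Pool.Agent.LuckyMean

open Finset
open Pool.Agent.LuckyStirling (T step ftf a)

/-- bound for `K` insertions that lead to a word of length `2 M` -/
def FK : ℕ → ℕ → ℕ → ℕ → ℕ
  | _, _, _, 0 => 0
  | 0, _, _, _ + 1 => 1
  | K + 1, M, x, k + 1 => (x - 1) * FK K (M - 1) (x - 2) k +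
      (if 1 ≤ x ∧ x ≤ 2 * M - 1 then FK K (M - 1) (x - 1) (k + 1) else 0) +
      (2 * M - 1 - x) * FK K (M - 1) x (k + 2)

/-- number of histories of `t` insertions starting with a word of length `2 m` -/
def Pn (m t : ℕ) : ℕ := ∏ i ∈ range t, (2 * m + 2 * i + 1)

/-- first moment of the number of lucky insertions -/
def B1 (t : ℕ) (v : List Bool) : ℕ := ∑ j ∈ range (t + 1), (t - j) * T t v j

/-- second moment -/
def B2 (t : ℕ) (v : List Bool) : ℕ := ∑ j ∈ range (t + 1), (t - j) ^ 2 * T t v j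

/-- KWR -/
def S_KWR : Prop := ∀ (K m x k : ℕ) (v : List Bool), v.length = 2 * m → x ≤ 2 * (m + K) →
  H K (ind x k) v ≤ FK K (m + K) x k

/-- KST: bound for `FK` -/
def S_KST : Prop := ∀ η : ℝ, 0 < η → η < 1 / 2 → ∃ r : ℝ, 0 ≤ r ∧ r < 1 ∧ ∀ K : ℕ, ∃ M0 : ℕ,
  ∀ m : ℕ, M0 ≤ m → ∀ x : ℕ, (x : ℝ) ≤ (1 - 2 * η) * (m + K : ℕ) →
    (FK K (m + K) x 1 : ℝ) ≤ Pn m K * (1 - V x (2 * (m + K) - x) 1 + r ^ K)

/-- UCB: uniform bound for the conditional mean -/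
def S_UCB : Prop := ∀ ε : ℝ, 0 < ε → ∃ K M0 : ℕ, ∀ (m : ℕ) (v : List Bool), M0 ≤ m →
  v.length = 2 * m →
    (H K lg v : ℝ) ≤ (1 - Real.log 2 + ε) * (2 * (m + K : ℕ) + 1) * Pn m K

/-- BB1: uniform bound for the first moment -/
def S_BB1 : Prop := ∀ ε : ℝ, 0 < ε → ∃ C : ℝ, 0 ≤ C ∧ ∀ (m t : ℕ) (v : List Bool),
  v.length = 2 * m → (B1 t v : ℝ) ≤ ((1 - Real.log 2 + ε) * t + C) * Pn m t

/-- SCD: second moment -/
def S_SCD : Prop := ∀ ε : ℝ, 0 < ε → ∃ C : ℝ, ∀ n : ℕ,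
  (∑ k ∈ range (n + 1), (k : ℝ) ^ 2 * a n k) ≤
    ((1 - Real.log 2) * (1 - Real.log 2 + ε) * (n : ℝ) ^ 2 + C * n * Real.sqrt n) *
      ∑ k ∈ range (n + 1), (a n k : ℝ)

/-- LLN: law of large numbers -/
def S_LLN : Prop := ∀ δ : ℝ, 0 < δ → ∀ τ : ℝ, 0 < τ → ∃ N : ℕ, ∀ n : ℕ, N ≤ n →
  (∑ k ∈ (range (n + 1)).filter (fun k : ℕ => δ * n < |(k : ℝ) - (1 - Real.log 2) * n|),
    (a n k : ℝ)) ≤ τ * ∑ k ∈ range (n + 1), (a n k : ℝ)

end Pool.Agent.LuckyMean
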